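import Pool.Agent.RU.Core

/-!
# No locally computable proofs
-/

namespace Pool.Agent.RU

open Pool.Agent.H19
open Pool.Agent.H19.T
open Pool.Agent.RL

/-! ### Subpolynomial functions -/

theorem Subpolynomial.mono {f g : ℕ → ℕ} (hg : Subpolynomial g) (h : ∀ n, f n ≤ g n) :
    Subpolynomial f := fun e => by
  obtain ⟨n₀, hn⟩ := hg e
  exact ⟨n₀, fun n hn' => (Nat.pow_le_pow_left (h n) e).trans (hn n hn')⟩

theorem Subpolynomial.const (c : ℕ) : Subpolynomial (fun _ => c) := fun e =>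
  ⟨c ^ e, fun _ hn => hn⟩

theorem Subpolynomial.mul {f g : ℕ → ℕ} (hf : Subpolynomial f) (hg : Subpolynomial g) :
    Subpolynomial (fun n => f n * g n) := fun e => by
  obtain ⟨n₁, h₁⟩ := hf (2 * e)
  obtain ⟨n₂, h₂⟩ := hg (2 * e)
  refine ⟨max n₁ n₂, fun n hn => ?_⟩
  have h3 := h₁ n (le_trans (le_max_left _ _) hn)
  have h4 := h₂ n (le_trans (le_max_right _ _) hn)
  rw [mul_pow]
  rcases le_total (f n ^ e) (g n ^ e) with h | h
  · calc f n ^ e * g n ^ e ≤ g n ^ e * g n ^ e := Nat.mul_le_mul_right _ h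
      _ = g n ^ (2 * e) := by rw [two_mul, pow_add]
      _ ≤ n := h4
  · calc f n ^ e * g n ^ e ≤ f n ^ e * f n ^ e := Nat.mul_le_mul_left _ h
      _ = f n ^ (2 * e) := by rw [two_mul, pow_add]
      _ ≤ n := h3

theorem Subpolynomial.max {f g : ℕ → ℕ} (hf : Subpolynomial f) (hg : Subpolynomial g) :
    Subpolynomial (fun n => max (f n) (g n)) := fun e => by
  obtain ⟨n₁, h₁⟩ := hf e
  obtain ⟨n₂, h₂⟩ := hg e
  refine ⟨Nat.max n₁ n₂, fun n hn => ?_⟩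
  have h3 := h₁ n (le_trans (Nat.le_max_left _ _) hn)
  have h4 := h₂ n (le_trans (Nat.le_max_right _ _) hn)
  beta_reduce
  rcases le_total (f n) (g n) with h | h
  · rw [max_eq_right h]; exact h4
  · rw [max_eq_left h]; exact h3

theorem Subpolynomial.add {f g : ℕ → ℕ} (hf : Subpolynomial f) (hg : Subpolynomial g) :
    Subpolynomial (fun n => f n + g n) :=
  ((Subpolynomial.const 2).mul (hf.max hg)).mono fun n => by
    have h1 := le_max_left (f n) (g n)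
    have h2 := le_max_right (f n) (g n)
    omega

theorem exists_pow_le_two_pow (e : ℕ) : ∃ s₀ : ℕ, ∀ s ≥ s₀, (s + 1) ^ e ≤ 2 ^ s := by
  have h := tendsto_pow_const_div_const_pow_of_one_lt e (r := (2 : ℝ)) (by norm_num)
  have h1 := (h.eventually (gt_mem_nhds (show (0 : ℝ) < 1 / 2 by norm_num)))
  obtain ⟨s₀, hs⟩ := Filter.eventually_atTop.1 h1
  refine ⟨s₀, fun s hs' => ?_⟩
  have h2 := hs (s + 1) (by omega)
  rw [div_lt_iff₀ (by positivity)] at h2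
  have h3 : ((s + 1 : ℕ) : ℝ) ^ e ≤ (2 : ℝ) ^ s := by
    have : (1 / 2 : ℝ) * 2 ^ (s + 1) = 2 ^ s := by rw [pow_succ]; ring
    rw [this] at h2
    exact h2.le
  exact_mod_cast h3

theorem Subpolynomial.size : Subpolynomial Nat.size := fun e => by
  obtain ⟨s₀, hs⟩ := exists_pow_le_two_pow e
  refine ⟨2 ^ s₀, fun n hn => ?_⟩
  have h1 : s₀ < n.size := Nat.lt_size.2 hn
  obtain ⟨s, hs'⟩ : ∃ s, n.size = s + 1 := ⟨n.size - 1, by omega⟩
  have h2 : 2 ^ s ≤ n := Nat.lt_size.1 (by omega)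
  rw [hs']
  exact (hs s (by omega)).trans h2

theorem Subpolynomial.X {τ : ℕ → ℕ} (hτ : Subpolynomial τ) :
    Subpolynomial (fun N => (bl N).size + 2 * τ N + 10) := by
  have h : Subpolynomial (fun N => 4 * N.size + 1 + 2 * τ N + 10) :=
    ((((Subpolynomial.const 4).mul Subpolynomial.size).add (Subpolynomial.const 1)).add
      ((Subpolynomial.const 2).mul hτ)).add (Subpolynomial.const 10)
  refine h.mono fun N => ?_
  have := bl_size N
  omega

theorem nat_size_le (n : ℕ) : n.size ≤ n := Nat.size_le.2 Nat.lt_two_pow_self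

/-- The program which never accepts. -/
theorem soundChecker_leaf (S : Set Fm) : SoundChecker S Code.leaf := by
  intro y z φ t h hz
  cases h
  exact absurd rfl hz

theorem describes_of {L : ℕ → ℕ} {W : ℕ → Code} {τ : ℕ → ℕ} {ℓ g : T → T}
    {r : ℕ → ℕ → Rec} {n : ℕ}
    (h : ℓ (T.node (bl n) (T.unary (τ n))) = bl (L n) ∧
      (∀ i < L n, g (T.node (bl n) (T.node (bl i) (T.unary (τ n)))) = (r n i).enc) ∧
      Accepting (r n) (L n) (W n)) : bn (ℓ (zl n (τ n))) = L n ∧ Describes ℓ g τ n (W n) := by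
  obtain ⟨h1, h2, h3⟩ := h
  have h4 : bn (ℓ (zl n (τ n))) = L n := by
    rw [zl, h1, bn_bl]
  refine ⟨h4, r n, ?_, ?_⟩
  · rw [h4]; exact h2
  · rw [h4]; exact h3

/-- The arithmetic: for `N = m ^ K`, with large `m`. -/
theorem choose_N {τ : ℕ → ℕ} (hτ : Subpolynomial τ) (j K : ℕ) :
    ∃ m₀ : ℕ, ∀ m ≥ m₀, ((bl (m ^ (K + 1))).size + 2 * τ (m ^ (K + 1)) + 10) ^ (j + 1) ≤ m := by
  obtain ⟨N₀, hN₀⟩ := hτ.X ((j + 1) * (K + 1))
  refine ⟨N₀, fun m hm => ?_⟩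
  have h1 : m ≤ m ^ (K + 1) := Nat.le_self_pow (by omega) m
  have h2 := hN₀ (m ^ (K + 1)) (by omega)
  beta_reduce at h2
  rw [pow_mul] at h2
  exact (Nat.pow_le_pow_iff_left (by omega)).1 h2

theorem main (μ : Fm) (hμ : IsUniversal μ) (P : Code → ℕ → Fm) (hP : IsFormalisation μ P)
    (S T₀ : Set Fm) (hS : InClassT S) (hT₀ : InClassT T₀) (V : Code) (hV : SoundChecker S V) :
    ∃ (c : Code) (κ : ℕ), HaltsWithin c κ ∧ theory c κ = T₀ ∧
      (¬ ∃ (L : ℕ → ℕ) (k n₀ : ℕ), (∀ n ≥ n₀, L n ≤ n ^ k) ∧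
        LocallyComputable L (fun n => check V (rfn (P c κ) μ n))) ∧
      ((¬ ∃ L : ℕ → ℕ, LocallyComputable L (fun n => check V (rfn (P c κ) μ n))) ∨
        LongProofs) := by
  by_cases hlong : LongProofs
  · -- the unconditional part
    obtain ⟨c, κ, hh, hth, hcore⟩ := core μ hμ P hP S T₀ hS hT₀ V hV μ hμ P hP S T₀ hS hT₀ V hV
    by_cases hloc : ∃ (L : ℕ → ℕ) (k n₀ : ℕ), (∀ n ≥ n₀, L n ≤ n ^ k) ∧
        LocallyComputable L (fun n => check V (rfn (P c κ) μ n))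
    swap
    · exact ⟨c, κ, hh, hth, hloc, Or.inr hlong⟩
    obtain ⟨L, _, _, _, τ, ℓ, g, r, n₀, hτc, hτ, hℓ, hg, hn₀⟩ := hloc
    obtain ⟨c', κ', hh', hth', j, C, hC⟩ := hcore τ ℓ g hτc hℓ hg
      ⟨n₀, fun n hn => (describes_of (W := fun n => check V (rfn (P c κ) μ n)) (hn₀ n hn)).2⟩
    refine ⟨c', κ', hh', hth', ?_, Or.inr hlong⟩
    rintro ⟨L', k, n₁, hL', τ', ℓ', g', r', n₂, _, hτ', ⟨al, kl, hal⟩, ⟨ag, kg, hag⟩, hn₂⟩
    obtain ⟨n₃, hn₃⟩ := hτ' 1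
    obtain ⟨J, hJ⟩ : ∃ J, J = kl + kg + 1 := ⟨_, rfl⟩
    obtain ⟨K, hK⟩ : ∃ K, K = (k + 1) * J + 2 := ⟨_, rfl⟩
    obtain ⟨m₀, hm₀⟩ := choose_N hτ j K
    obtain ⟨A, hA⟩ : ∃ A, A = ag.enc.size + al.enc.size := ⟨_, rfl⟩
    obtain ⟨m, hm⟩ : ∃ m, m = n₁ + n₂ + n₃ + m₀ + C + C * (A + 21 ^ J + 4) + 1 := ⟨_, rfl⟩
    have hm1 := hm₀ m (by omega)
    have hmN : m ≤ m ^ (K + 1) := Nat.le_self_pow (by omega) m
    obtain ⟨N, hN⟩ : ∃ N, N = m ^ (K + 1) := ⟨_, rfl⟩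
    rw [← hN] at hm1 hmN
    obtain ⟨X, hX⟩ : ∃ X, X = (bl N).size + 2 * τ N + 10 := ⟨_, rfl⟩
    rw [← hX] at hm1
    have hXm : X ≤ m := (Nat.le_self_pow (by omega) X).trans hm1
    have hXj : X ^ j ≤ m := (Nat.pow_le_pow_right (by omega) (by omega)).trans hm1
    have hXj' : ((bl N).size + 2 * τ N + 10) ^ j ≤ m := by rw [← hX]; exact hXj
    obtain ⟨hd1, hd2⟩ := describes_of (W := fun n => check V (rfn (P c' κ') μ n)) (L := L')
      (hn₂ m (by omega))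
    obtain ⟨B, hB⟩ : ∃ B, B = (4 * L' m + (bl m).size + 2 * τ' m + 10) ^ J := ⟨_, rfl⟩
    have hdesc := descY_of hd2 hal hag (B := B) (by rw [hB, hd1, hJ])
    have hlt := (hC N m (by omega) (by omega) hXj').1 _ _ _ _ hdesc
    -- the estimate
    have hL1 := hL' m (by omega)
    have hτ1 := hn₃ m (by omega)
    rw [pow_one] at hτ1
    have hbm := bl_size m
    have hsm := nat_size_le m
    have hm1' : 1 ≤ m := by omega
    have hmk : 1 ≤ m ^ k := Nat.one_le_pow _ _ hm1'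
    have hmk1 : m ^ k ≤ m ^ (k + 1) := Nat.pow_le_pow_right hm1' (by omega)
    have hmk2 : m ≤ m ^ (k + 1) := Nat.le_self_pow (by omega) m
    have hbase : 4 * L' m + (bl m).size + 2 * τ' m + 10 ≤ 21 * m ^ (k + 1) := by omega
    have hB1 : B ≤ 21 ^ J * m ^ ((k + 1) * J) := by
      rw [hB, pow_mul, ← mul_pow]
      exact Nat.pow_le_pow_left hbase _
    obtain ⟨M, hM⟩ : ∃ M, M = m ^ ((k + 1) * J + 1) := ⟨_, rfl⟩
    have hM1 : m ≤ M := by rw [hM]; exact Nat.le_self_pow (by omega) m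
    have hM2 : m ^ ((k + 1) * J) ≤ M := by
      rw [hM]; exact Nat.pow_le_pow_right hm1' (by omega)
    have hB2 : B ≤ 21 ^ J * M := hB1.trans (Nat.mul_le_mul_left _ hM2)
    have hA1 : A ≤ A * M := Nat.le_mul_of_pos_right _ (by omega)
    have hsum : ag.enc.size + al.enc.size + τ' m + B + m + (bl N).size + τ N ≤
        (A + 21 ^ J + 4) * M := by
      have e : (A + 21 ^ J + 4) * M = A * M + 21 ^ J * M + 4 * M := by ring
      rw [e]
      omega
    have hNM : N = m * m * M := by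
      rw [hN, hM, hK]
      ring
    have h1 : C * (ag.enc.size + al.enc.size + τ' m + B + m + (bl N).size + τ N) ≤
        C * (A + 21 ^ J + 4) * M := by
      rw [mul_assoc]; exact Nat.mul_le_mul_left _ hsum
    have h2 : C * (A + 21 ^ J + 4) * M ≤ m * m * M := by
      refine Nat.mul_le_mul_right _ ?_
      calc C * (A + 21 ^ J + 4) ≤ m := by omega
        _ ≤ m * m := Nat.le_mul_of_pos_left _ hm1'
    omega
  · -- the dichotomy
    have hex := hlong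
    unfold LongProofs at hex
    push Not at hex
    obtain ⟨μ₂, hμ₂, P₂, hP₂, S₂, T₂, hS₂, hT₂, hbad⟩ := hex
    obtain ⟨c, κ, hh, hth, hcore⟩ := core μ hμ P hP S T₀ hS hT₀ V hV μ₂ hμ₂ P₂ hP₂ S₂ T₂ hS₂ hT₂
      Code.leaf (soundChecker_leaf S₂)
    have hloc : ¬ ∃ L : ℕ → ℕ, LocallyComputable L (fun n => check V (rfn (P c κ) μ n)) := by
      rintro ⟨L, τ, ℓ, g, r, n₀, hτc, hτ, hℓ, hg, hn₀⟩
      obtain ⟨c', κ', hh', hth', j, C, hC⟩ := hcore τ ℓ g hτc hℓ hg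
        ⟨n₀, fun n hn => (describes_of (W := fun n => check V (rfn (P c κ) μ n)) (hn₀ n hn)).2⟩
      obtain ⟨k, hk⟩ := hbad c' κ' hh' hth'
      obtain ⟨m₀, hm₀⟩ := choose_N hτ j (k + 1)
      obtain ⟨m, hm, π, hπ, hle⟩ := hk (m₀ + 4 * C + 1)
      have hm1 := hm₀ m (by omega)
      have hmN : m ≤ m ^ (k + 1 + 1) := Nat.le_self_pow (by omega) m
      obtain ⟨N, hN⟩ : ∃ N, N = m ^ (k + 1 + 1) := ⟨_, rfl⟩
      rw [← hN] at hm1 hmN
      obtain ⟨X, hX⟩ : ∃ X, X = (bl N).size + 2 * τ N + 10 := ⟨_, rfl⟩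
      rw [← hX] at hm1
      have hXm : X ≤ m := (Nat.le_self_pow (by omega) X).trans hm1
      have hXj : X ^ j ≤ m := (Nat.pow_le_pow_right (by omega) (by omega)).trans hm1
      have hXj' : ((bl N).size + 2 * τ N + 10) ^ j ≤ m := by rw [← hX]; exact hXj
      have hlt := (hC N m (by omega) (by omega) hXj').2 π hπ
      have hm1' : 1 ≤ m := by omega
      have hmk1 : m ^ k ≤ m ^ (k + 1) := Nat.pow_le_pow_right hm1' (by omega)
      have hmk2 : m ≤ m ^ (k + 1) := Nat.le_self_pow (by omega) m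
      have hNM : N = m * m ^ (k + 1) := by rw [hN]; ring
      have h1 : C * ((encProof π).size + m + (bl N).size + τ N) ≤ C * (4 * m ^ (k + 1)) :=
        Nat.mul_le_mul_left _ (by omega)
      have h2 : C * (4 * m ^ (k + 1)) ≤ m * m ^ (k + 1) := by
        calc C * (4 * m ^ (k + 1)) = (4 * C) * m ^ (k + 1) := by ring
          _ ≤ m * m ^ (k + 1) := Nat.mul_le_mul_right _ (by omega)
      omega
    exact ⟨c, κ, hh, hth, fun ⟨L, _, _, _, h⟩ => hloc ⟨L, h⟩, Or.inl hloc⟩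

end Pool.Agent.RU
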