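import Pool.Agent.RU.Poly

/-!
# Bounded quantifiers
-/

namespace Pool.Agent.RU

open Pool.Agent.H19
open Pool.Agent.H19.T

section
variable (f : T → T)

/-- One step; the state is `node x (node b (unary i))`, and `b` is a leaf as long as the values of
`f` on `node x (unary j)`, for `j < i`, were not leaves. -/
def ballStep (s : T) : T :=
  T.node s.left (T.node (tif s.right.left (tif (f (T.node s.left s.right.right))
    (T.node T.leaf T.leaf) T.leaf) (T.node T.leaf T.leaf)) (T.node T.leaf s.right.right))

open Classical in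
theorem ballStep_iterate (x : T) (n : ℕ) :
    (ballStep f)^[n] (T.node x (T.node T.leaf (T.unary 0))) =
      T.node x (T.node (if ∀ i < n, f (T.node x (T.unary i)) ≠ T.leaf then T.leaf
        else T.node T.leaf T.leaf) (T.unary n)) := by
  induction n with
  | zero => simp
  | succ n ih =>
    rw [Function.iterate_succ_apply', ih, ballStep]
    simp only [T.left_node, T.right_node]
    have h1 : (∀ i < n + 1, f (T.node x (T.unary i)) ≠ T.leaf) ↔
        (∀ i < n, f (T.node x (T.unary i)) ≠ T.leaf) ∧ f (T.node x (T.unary n)) ≠ T.leaf := by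
      constructor
      · exact fun h => ⟨fun i hi => h i (by omega), h n (by omega)⟩
      · rintro ⟨h, h'⟩ i hi
        rcases Nat.lt_succ_iff_lt_or_eq.1 hi with hi | rfl
        · exact h i hi
        · exact h'
    rw [if_congr h1 rfl rfl]
    by_cases h2 : ∀ i < n, f (T.node x (T.unary i)) ≠ T.leaf
    · rw [if_pos h2, tif_leaf]
      by_cases h3 : f (T.node x (T.unary n)) = T.leaf
      · rw [if_neg (fun h => h.2 h3), h3, tif_leaf]; rfl
      · rw [if_pos ⟨h2, h3⟩]
        unfold tif
        rw [if_neg h3]; rfl
    · rw [if_neg h2, if_neg (fun h => h2 h.1), tif_node]; rfl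

end

theorem PolyDec.ball {P : T → Prop} (hP : PolyDec P) {n : T → ℕ} (hn : PolyNat n) :
    PolyDec (fun x => ∀ i < n x, P (T.node x (T.unary i))) := by
  classical
  obtain ⟨f, hf, hPf⟩ := hP
  have i := PolyTime.id
  have hstep : PolyTime (ballStep f) :=
    i.left.node ((PolyTime.tif i.right.left (PolyTime.tif (hf.comp (i.left.node i.right.right))
      (PolyTime.const _) (PolyTime.const _)) (PolyTime.const _)).node
        ((PolyTime.const _).node i.right.right))
  have h0 : PolyTime (fun x => T.node x (T.node T.leaf (T.unary 0))) :=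
    i.node (PolyTime.const _)
  have hit := PolyTime.iterate hstep hn.unary h0 (by
    obtain ⟨a, ha⟩ := PolyTime.size_bound hn
    obtain ⟨k, hk⟩ : PolyB (fun m => m + (m + 2) ^ a + 5) :=
      (PolyB.id.add ⟨a, fun _ => le_rfl⟩).add (PolyB.const 5)
    refine ⟨k, fun x i hi => le_trans ?_ (hk x.size)⟩
    rw [ballStep_iterate]
    have h1 := ha x
    rw [T.len_unary] at hi
    simp only [T.size, T.size_unary] at h1 ⊢
    split_ifs <;> simp only [T.size] <;> omega)
  refine (PolyDec.eq_leaf hit.right.left).congr fun x => ?_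
  rw [ballStep_iterate, T.right_node, T.left_node, T.len_unary]
  have h1 : (∀ i < n x, f (T.node x (T.unary i)) ≠ T.leaf) ↔
      ∀ i < n x, P (T.node x (T.unary i)) :=
    forall_congr' fun i => forall_congr' fun _ => (hPf _).symm
  rw [← h1]
  by_cases h : ∀ i < n x, f (T.node x (T.unary i)) ≠ T.leaf
  · rw [if_pos h]; exact ⟨fun _ => h, fun _ => rfl⟩
  · rw [if_neg h]; exact ⟨fun h' => absurd h' (by simp), fun h' => absurd h' h⟩

end Pool.Agent.RU
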