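import Pool.Agent.RU.Prog
import Pool.Agent.RL3.Main

/-!
# The theory which watches for locally computable proofs
-/

namespace Pool.Agent.RU

open Pool.Agent.H19
open Pool.Agent.H19.T
open Pool.Agent.RL

/-! ### Accepted descriptions are sound -/

theorem const_inv : ∀ (a : T) {x b : T} {t : ℕ}, Eval (Code.const a) x b t → b = a
  | T.leaf, _, _, _, h => by
    rw [Code.const] at h
    cases h
    rfl
  | T.node a₁ a₂, _, _, _, h => by
    rw [Code.const] at h
    cases h with
    | pair h1 h2 => rw [const_inv a₁ h1, const_inv a₂ h2]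

theorem check_inv {V : Code} {φ : Fm} {x y : T} {t : ℕ} (h : Eval (check V φ) x y t) :
    ∃ t, Eval V (T.node x φ.enc) y t := by
  rw [check] at h
  cases h with
  | comp h1 h2 =>
    cases h1 with
    | pair h3 h4 =>
      cases h3
      rw [const_inv _ h4] at h2
      exact ⟨_, h2⟩

theorem accept_sound {S : Set Fm} {V : Code} {φ : Fm} (hV : SoundChecker S V) {R : ℕ → T} {L : ℕ}
    (hL : L ≠ 0) (h : ∀ i < L, CheckT R i ∧ (i + 1 ≠ L ∨ FinalT R i (check V φ).enc)) :
    Provable S φ := by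
  obtain ⟨i, rfl⟩ := Nat.exists_eq_succ_of_ne_zero hL
  obtain ⟨h1, h2⟩ := h i (by omega)
  obtain ⟨h3, h4, h5, h6⟩ := h2.resolve_left (by simp)
  obtain ⟨t, ht⟩ := check_sound (fun k hk => (h k hk).1) i (by omega) _ h3 h4
  obtain ⟨t, ht⟩ := check_inv ht
  refine hV _ _ _ _ ht ?_
  rw [val_node (h _ (h5.trans (by omega))).1 h6]
  simp

theorem descY_sound {S : Set Fm} {V : Code} {φ : Fm} (hV : SoundChecker S V) {y : T} {m : ℕ}
    (h : DescY y m (check V φ).enc) : Provable S φ :=
  accept_sound hV h.2.1 fun i hi => (h.2.2 i (by have := h.1; omega)).resolve_left (by omega)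

/-! ### Descriptions -/

/-- The functions `ℓ` and `g` describe an accepting computation of `W` for `n`. -/
def Describes (ℓ g : T → T) (τ : ℕ → ℕ) (n : ℕ) (W : Code) : Prop :=
  ∃ r : ℕ → Rec, (∀ i < bn (ℓ (zl n (τ n))), g (zr n (τ n) i) = (r i).enc) ∧
    Accepting r (bn (ℓ (zl n (τ n)))) W

theorem descY_of {ℓ g : T → T} {τ : ℕ → ℕ} {m : ℕ} {W : Code} (h : Describes ℓ g τ m W)
    {al ag : Code} {kl kg : ℕ} (hal : ∀ x : T, ∃ t : ℕ, Eval al x (ℓ x) t ∧ t ≤ (x.size + 2) ^ kl)
    (hag : ∀ x : T, ∃ t : ℕ, Eval ag x (g x) t ∧ t ≤ (x.size + 2) ^ kg) {B : ℕ}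
    (hB : (4 * bn (ℓ (zl m (τ m))) + (bl m).size + 2 * τ m + 10) ^ (kl + kg + 1) ≤ B) :
    DescY (T.node (T.node ag.enc al.enc) (T.node (T.unary (τ m)) (T.unary B))) m W.enc := by
  obtain ⟨r, hr, hL, hok, hfin⟩ := h
  obtain ⟨L, hLL⟩ : ∃ L, L = bn (ℓ (zl m (τ m))) := ⟨_, rfl⟩
  rw [← hLL] at hr hL hok hfin hB
  obtain ⟨X, hX⟩ : ∃ X, X = 4 * L + (bl m).size + 2 * τ m + 10 := ⟨_, rfl⟩
  rw [← hX] at hB
  obtain ⟨y, hy⟩ : ∃ y, y = T.node (T.node ag.enc al.enc) (T.node (T.unary (τ m))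
    (T.unary B)) := ⟨_, rfl⟩
  rw [← hy]
  have es : ys y = τ m := by rw [hy]; exact T.len_unary _
  have eB : yB y = B := by rw [hy]; exact T.len_unary _
  have el : y.left.right = al.enc := by rw [hy]; rfl
  have eg : y.left.left = ag.enc := by rw [hy]; rfl
  have hXB : ∀ k ≤ kl + kg + 1, X ^ k ≤ B := fun k hk =>
    (Nat.pow_le_pow_right (by omega) hk).trans hB
  have hLB : L ≤ B := by
    refine le_trans ?_ (hXB 1 (by omega))
    rw [pow_one]; omega
  have eO : OY y m = ℓ (zl m (τ m)) := by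
    obtain ⟨t, ht, hb⟩ := hal (zl m (τ m))
    rw [OY, el, es, eB]
    refine simul_spec ht (hb.trans (le_trans ?_ (hXB kl (by omega))))
    refine Nat.pow_le_pow_left ?_ _
    simp only [zl, T.size, T.size_unary]
    omega
  have eR : ∀ k < L, RY y m k = (r k).enc := by
    intro k hk
    rw [← hr k hk]
    obtain ⟨t, ht, hb⟩ := hag (zr m (τ m) k)
    rw [RY, eg, es, eB]
    refine simul_spec ht (hb.trans (le_trans ?_ (hXB kg (by omega))))
    refine Nat.pow_le_pow_left ?_ _
    have h1 := bl_size k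
    have h2 : k.size ≤ k := by
      have := Nat.size_le.2 (show k < 2 ^ k from Nat.lt_two_pow_self)
      exact this
    simp only [zr, T.size, T.size_unary]
    omega
  unfold DescY
  rw [eO, eB, ← hLL]
  refine ⟨hLB, by omega, fun i hi => ?_⟩
  rcases Nat.lt_or_ge i L with h | h
  · right
    have hR : ∀ k ≤ i, RY y m k = (r k).enc := fun k hk => eR k (by omega)
    refine ⟨check_complete hR fun k hk => hok k (by omega), ?_⟩
    by_cases h1 : i + 1 = L
    · right
      obtain ⟨x, y', s', t, a, b, h6, h7⟩ := hfin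
      have h8 : L - 1 = i := by omega
      rw [h8] at h6
      exact final_complete hR (hok i h) h6 h7
    · exact Or.inl h1
  · exact Or.inl h

/-! ### The watching theory -/

def vN (v : T) : ℕ := bn v.right.left.right.left
def vs (v : T) : ℕ := v.right.left.right.right.len
def vm (v : T) : ℕ := v.right.right.len

section
variable (S : Set Fm) (μ : Fm) (fP : T → T) (V : T) (f₀ : T → T) (cG cM cm cL : Code) (β m₁ : ℕ)

/-- The tree `v` contains an explicit description of an accepting computation, or an `S`-proof, for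
the reflection sentence for `vm v` of the theory which reports errors for the programs in `v`. -/
def SuccL (v q : T) : Prop :=
  m₁ ≤ vm v ∧ v.left.right.left.len = 1 ∧ v.left.right.right.len ≤ vN v ∧
    100 * v.size + m₁ ≤ vN v ∧
    ((bl (vN v)).size + 2 * vs v + 10) ^ (v.left.left.right.len + 7) ≤ vm v ∧
    outB v.left.left.left.right v.left.left.right.len (vm v) (zl (vN v) (vs v)) ≠ T.leaf ∧
    (DescY v.right.left.left (vm v) (WE V (rfn (decFm (fP (T.node
      (progE cG cM cm cL (T.node v.left q)) (T.unary (kap β (T.node v.left q)))))) μ (vm v)).enc) ∨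
    IsProof S (decProof v.right.left.left) (rfn (decFm (fP (T.node
      (progE cG cM cm cL (T.node v.left q)) (T.unary (kap β (T.node v.left q)))))) μ (vm v)))

open Classical in
/-- The decider; its argument is `node x q`. -/
noncomputable def HL (z : T) : T :=
  if (falsum (unfalsum z.left)).enc = z.left ∧
    SuccL S μ fP V cG cM cm cL β m₁ (unfalsum z.left) z.right
  then T.node T.leaf T.leaf else f₀ z.left

end

theorem HL_polyTime {S : Set Fm} {μ : Fm} {fP f₀ : T → T} {V : T} {cG cM cm cL : Code}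
    {β m₁ : ℕ} (hS : DecTh S) (hfP : PolyTime fP) (hf₀ : PolyTime f₀) :
    PolyTime (HL S μ fP V f₀ cG cM cm cL β m₁) := by
  have i := PolyTime.id
  have hv : PolyTime (fun z : T => unfalsum z.left) :=
    uu_polyTime.comp i.left.right.left.right.left
  have hN : PolyN (fun z : T => vN (unfalsum z.left)) := polyN_bn hv.right.left.right.left
  have hN' : PolyTime (fun z : T => bl (vN (unfalsum z.left))) := hN
  have hs : PolyNat (fun z : T => vs (unfalsum z.left)) := PolyNat.len hv.right.left.right.right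
  have hm : PolyNat (fun z : T => vm (unfalsum z.left)) := PolyNat.len hv.right.right
  have hj : PolyNat (fun z : T => (unfalsum z.left).left.left.right.len) :=
    PolyNat.len hv.left.left.right
  have hD : PolyTime (fun z : T => T.node (unfalsum z.left).left z.right) :=
    hv.left.node i.right
  have hdec : PolyDec (fun z : T => (falsum (unfalsum z.left)).enc = z.left ∧
      SuccL S μ fP V cG cM cm cL β m₁ (unfalsum z.left) z.right) := by
    refine (PolyDec.eq (falsum_polyTime.comp hv) i.left).and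
      ((PolyDec.le (PolyNat.const m₁) hm).and ?_)
    refine (PolyDec.eqN (PolyNat.len hv.left.right.left).toN (PolyNat.const 1).toN).and ?_
    refine (PolyDec.leN (PolyNat.len hv.left.right.right).toN hN).and ?_
    refine (PolyDec.leN (((PolyNat.const 100).mul (PolyNat.size hv)).add
      (PolyNat.const m₁)).toN hN).and ?_
    refine ((PolyDec.le_pow (((PolyNat.size hN').add ((PolyNat.const 2).mul hs)).add
      (PolyNat.const 10)) (hm.add (PolyNat.const 1)) (hj.add (PolyNat.const 7))).not.congr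
        fun _ => by omega).and ?_
    refine (PolyDec.ne_leaf (outB_poly hv.left.left.left.right hj hm
      (hN'.node hs.unary))).and ?_
    have hrfn := rfn_polyTime μ (hfP.comp (((progE_polyTime cG cM cm cL).comp hD).node
        ((kap_polyNat β).comp hD).unary)) hm
    refine (DescY_dec hv.right.left.left hm.toN (WE_poly V hrfn)).or ?_
    have h := (isProof_polyDec hS).comp (hv.right.left.left.node hrfn)
    refine h.congr fun z => ?_
    simp only [T.left_node, T.right_node, decFm_enc]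
  refine (PolyTime.ifP hdec (PolyTime.const (T.node T.leaf T.leaf))
      (hf₀.comp i.left)).congr fun z => ?_
  unfold HL
  split_ifs <;> rfl

/-- **The core.** -/
theorem core (μ₁ : Fm) (hμ₁ : IsUniversal μ₁) (P₁ : Code → ℕ → Fm) (hP₁ : IsFormalisation μ₁ P₁)
    (S₁ T₁ : Set Fm) (hS₁ : InClassT S₁) (hT₁ : InClassT T₁) (V₁ : Code)
    (hV₁ : SoundChecker S₁ V₁)
    (μ₂ : Fm) (hμ₂ : IsUniversal μ₂) (P₂ : Code → ℕ → Fm) (hP₂ : IsFormalisation μ₂ P₂)
    (S₂ T₂ : Set Fm) (hS₂ : InClassT S₂) (hT₂ : InClassT T₂) (V₂ : Code)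
    (hV₂ : SoundChecker S₂ V₂) :
    ∃ (c : Code) (κ : ℕ), HaltsWithin c κ ∧ theory c κ = T₁ ∧
      ∀ (τ : ℕ → ℕ) (ℓ g : T → T), Constructible τ → PolyTime ℓ → PolyTime g →
        (∃ n₀ : ℕ, ∀ n ≥ n₀, Describes ℓ g τ n (check V₁ (rfn (P₁ c κ) μ₁ n))) →
        ∃ (c' : Code) (κ' : ℕ), HaltsWithin c' κ' ∧ theory c' κ' = T₂ ∧
          ∃ j C : ℕ, ∀ N m : ℕ, C ≤ N → C ≤ m → ((bl N).size + 2 * τ N + 10) ^ j ≤ m →
            (∀ (s B : ℕ) (a b : T),
              DescY (T.node (T.node a b) (T.node (T.unary s) (T.unary B))) m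
                (check V₂ (rfn (P₂ c' κ') μ₂ m)).enc →
              N < C * (a.size + b.size + s + B + m + (bl N).size + τ N)) ∧
            ∀ π : List Step, IsProof S₂ π (rfn (P₂ c' κ') μ₂ m) →
              N < C * ((encProof π).size + m + (bl N).size + τ N) := by
  obtain ⟨K₁, hkey₁⟩ := RL3.key hμ₁ hP₁ hS₁
  obtain ⟨K₂, hkey₂⟩ := RL3.key hμ₂ hP₂ hS₂
  obtain ⟨fP₁, hfP₁, hfPc₁⟩ := hP₁.poly
  obtain ⟨fP₂, hfP₂, hfPc₂⟩ := hP₂.poly
  obtain ⟨hc₁, f₁, hf₁, hT₁f⟩ := hT₁
  obtain ⟨hc₂, f₂, hf₂, hT₂f⟩ := hT₂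
  have hSdec₂ := DecTh.of_inClassT hS₂
  obtain ⟨m₁, hm₁⟩ : ∃ m₁ : ℕ, m₁ = 3 * (K₁ + K₂ + 1000) := ⟨_, rfl⟩
  obtain ⟨cG, cM, cm, cL, β, hprog⟩ := prog_cost2 (FF_poly μ₁ hfP₁ hf₂ V₁.enc)
  have haccP : ∀ D x : T, Accepts (prog cG cM cm cL D) (kap β D) x ↔
      FF μ₁ fP₁ V₁.enc f₂ (T.node D (T.node x (WW2 D x))) ≠ T.leaf := by
    intro D x
    obtain ⟨t, ht, hb⟩ := hprog D x
    exact accepts_iff ht hb
  obtain ⟨c, κ, hcκ⟩ := recursion (HL_polyTime (μ := μ₂) (V := V₂.enc) (cG := cG) (cM := cM)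
    (cm := cm) (cL := cL) (β := β) (m₁ := m₁) hSdec₂ hfP₂ hf₁)
  have hacc : ∀ x : T, Accepts c κ x ↔ HL S₂ μ₂ fP₂ V₂.enc f₁ cG cM cm cL β m₁
      (T.node x (T.node c.enc (T.unary κ))) ≠ T.leaf := by
    intro x
    obtain ⟨t, ht, hb⟩ := hcκ x
    exact accepts_iff ht hb
  obtain ⟨q, hq⟩ : ∃ q, q = T.node c.enc (T.unary κ) := ⟨_, rfl⟩
  rw [← hq] at hacc
  have hPq : fP₁ q = (P₁ c κ).enc := by rw [hq]; exact hfPc₁ c κ
  -- there is no success
  have hno : ∀ v : T, ¬ SuccL S₂ μ₂ fP₂ V₂.enc cG cM cm cL β m₁ v q := by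
    intro v hv
    have hmem : falsum v ∈ theory c κ := by
      refine Or.inr ((hacc _).2 ?_)
      have : HL S₂ μ₂ fP₂ V₂.enc f₁ cG cM cm cL β m₁ (T.node (falsum v).enc q) =
          T.node T.leaf T.leaf := by
        simp only [HL, T.left_node, T.right_node]
        rw [if_pos]
        exact ⟨by rw [unfalsum_enc], by rw [unfalsum_enc]; exact hv⟩
      rw [this]; simp
    obtain ⟨hv1, hv2, hv3, hv4, hv5, hv6, hv7⟩ := hv
    obtain ⟨D, hD⟩ : ∃ D, D = T.node v.left q := ⟨_, rfl⟩
    rw [← hD, progE_eq, hfPc₂, decFm_enc, WE_eq] at hv7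
    obtain ⟨N, hN⟩ : ∃ N, N = vN v := ⟨_, rfl⟩
    obtain ⟨s, hs⟩ : ∃ s, s = vs v := ⟨_, rfl⟩
    obtain ⟨m, hm⟩ : ∃ m, m = vm v := ⟨_, rfl⟩
    obtain ⟨j, hj⟩ : ∃ j, j = v.left.left.right.len := ⟨_, rfl⟩
    rw [← hm] at hv1 hv5 hv6 hv7
    rw [← hN] at hv3 hv4 hv5 hv6
    rw [← hs, ← hj] at hv5 hv6
    have hjD : dj D = j := by rw [hD, hj]; rfl
    have hpD : Provable S₂ (rfn (P₂ (prog cG cM cm cL D) (kap β D)) μ₂ m) := by
      rcases hv7 with hv7 | hv7
      · exact descY_sound hV₂ hv7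
      · exact ⟨_, hv7⟩
    -- the theory which reports errors reports no error
    have hnb : ∀ i : ℕ, 65 * (T.node (zl N s) (bl i)).size + K₂ ≤ m →
        ¬ BadX μ₁ fP₁ V₁.enc D N s i := by
      intro i hi hB
      refine hkey₂ (prog cG cM cm cL D) (kap β D) (T.node (zl N s) (bl i)) m ?_ hi hpD
      refine Or.inr ((haccP _ _).2 ?_)
      have : FF μ₁ fP₁ V₁.enc f₂ (T.node D (T.node (falsum (T.node (zl N s) (bl i))).enc
          (WW2 D (falsum (T.node (zl N s) (bl i))).enc))) = T.node T.leaf T.leaf := by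
        simp only [FF, T.left_node, T.right_node]
        rw [if_pos]
        refine ⟨by rw [unfalsum_enc], ?_⟩
        rw [badB_iff (by rw [hD]; exact hv2)]
        simp only [zl, T.left_node, T.right_node, T.len_unary, bn_bl]
        exact hB
      rw [this]; simp
    obtain ⟨X, hX⟩ : ∃ X, X = (bl N).size + 2 * s + 10 := ⟨_, rfl⟩
    rw [← hX] at hv5
    have hX10 : 10 ≤ X := by omega
    have hXj : 1 ≤ X ^ j := Nat.one_le_pow _ _ (by omega)
    have hzl : (zl N s).size + 2 ≤ X := by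
      simp only [zl, T.size, T.size_unary]; omega
    have hclk : ((zl N s).size + 2) ^ j ≤ X ^ j := Nat.pow_le_pow_left hzl _
    have hbig : 1000 * (X * X ^ j) ≤ m := by
      refine le_trans ?_ hv5
      have e : X ^ (j + 7) = X ^ 6 * (X * X ^ j) := by ring
      rw [e]
      refine Nat.mul_le_mul_right _ ?_
      calc 1000 ≤ 10 ^ 6 := by norm_num
        _ ≤ X ^ 6 := Nat.pow_le_pow_left hX10 6
    have hXX : X ≤ X * X ^ j := Nat.le_mul_of_pos_right _ hXj
    have hXX' : X ^ j ≤ X * X ^ j := Nat.le_mul_of_pos_left _ (by omega)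
    have hsm : ∀ i : ℕ, (bl i).size ≤ 2 * X ^ j → ¬ BadX μ₁ fP₁ V₁.enc D N s i := by
      intro i hi
      refine hnb i ?_
      simp only [T.size]
      omega
    have hA : outX (dT D) (dj D) (zl N s) ≠ T.leaf := by
      have : outX (dT D) (dj D) (zl N s) =
          outB v.left.left.left.right j m (zl N s) := by
        rw [hjD, hD]
        refine (outB_eq ?_).symm
        omega
      rw [this]
      exact hv6
    have hdn : dn D ≤ N := by rw [hD]; exact hv3
    have h0 := hsm 0 (by rw [bl_zero]; simp only [T.size]; omega)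
    have hO1 : (OX D N s).size ≤ ((zl N s).size + 2) ^ j := by
      by_contra hcon
      exact h0 ⟨hdn, hA, Or.inl (by rw [hjD]; omega)⟩
    have hO2 : bn (OX D N s) ≠ 0 := by
      intro hcon
      exact h0 ⟨hdn, hA, Or.inr (Or.inl hcon)⟩
    have hTX : TX μ₁ fP₁ V₁.enc D N = (check V₁ (rfn (P₁ c κ) μ₁ N)).enc := by
      rw [TX, hD, T.right_node, hPq, decFm_enc, WE_eq]
    have hpr : Provable S₁ (rfn (P₁ c κ) μ₁ N) := by
      refine accept_sound hV₁ hO2 (R := RX D N s) fun i hi => ?_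
      have h1 := bl_bn_size (OX D N s) i hi.le
      have h2 := hsm i (by omega)
      constructor
      · by_contra hcon
        exact h2 ⟨hdn, hA, Or.inr (Or.inr ⟨hi, Or.inl hcon⟩)⟩
      · by_contra hcon
        rw [not_or, not_not] at hcon
        refine h2 ⟨hdn, hA, Or.inr (Or.inr ⟨hi, Or.inr ⟨hcon.1, ?_⟩⟩)⟩
        rw [hTX]
        exact hcon.2
    exact hkey₁ c κ v N hmem (by omega) hpr
  have hhalt : HaltsWithin c κ := fun x => ⟨_, hcκ x⟩
  have hth : theory c κ = T₁ := by
    ext φ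
    rw [hT₁f]
    show (φ ∈ S12 ∨ Accepts c κ φ.enc) ↔ _
    rw [hacc]
    have : HL S₂ μ₂ fP₂ V₂.enc f₁ cG cM cm cL β m₁ (T.node φ.enc q) = f₁ φ.enc := by
      simp only [HL, T.left_node, T.right_node]
      rw [if_neg fun h => hno _ h.2]
    rw [this]
  refine ⟨c, κ, hhalt, hth, ?_⟩
  rintro τ ℓ g ⟨h, ⟨ah, kh, hah⟩, hτ⟩ ⟨al, kl, hal⟩ ⟨ag, kg, hag⟩ ⟨n₀, hn₀⟩
  obtain ⟨j, hj⟩ : ∃ j, j = kh + kl + kg := ⟨_, rfl⟩
  obtain ⟨D₀, hD₀⟩ : ∃ D₀ : T, D₀ = T.node (T.node (T.node (T.node ag.enc al.enc) ah.enc)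
    (T.unary j)) (T.node (T.unary 1) (T.unary n₀)) := ⟨_, rfl⟩
  obtain ⟨D, hD⟩ : ∃ D, D = T.node D₀ q := ⟨_, rfl⟩
  have dG' : dG D = ag.enc := by rw [hD, hD₀]; rfl
  have dL' : dL D = al.enc := by rw [hD, hD₀]; rfl
  have dT' : dT D = ah.enc := by rw [hD, hD₀]; rfl
  have dj' : dj D = j := by rw [hD, hD₀]; exact T.len_unary j
  have dn' : dn D = n₀ := by rw [hD, hD₀]; exact T.len_unary n₀
  have dK' : D.left.right.left.len = 1 := by rw [hD, hD₀]; exact T.len_unary 1
  have hnb : ∀ N s i : ℕ, ¬ BadX μ₁ fP₁ V₁.enc D N s i := by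
    rintro N s i ⟨h1, h2, h3⟩
    rw [dn'] at h1
    rw [dT', dj', outX_spec hah (by omega)] at h2
    have hs : s = τ N := (hτ N s).1 h2
    rw [hs] at h3
    obtain ⟨r, hr, hL, hok, hfin⟩ := hn₀ N h1
    have eO : OX D N (τ N) = ℓ (zl N (τ N)) := by
      rw [OX, dL', dj', outX_spec hal (by omega)]
    have eR : ∀ k, RX D N (τ N) k = g (zr N (τ N) k) := by
      intro k
      rw [RX, dG', dj', outX_spec hag (by omega)]
    rw [eO] at h3
    rcases h3 with h3 | h3 | ⟨h3, h4⟩
    · obtain ⟨t, ht, hb⟩ := hal (zl N (τ N))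
      have h5 := ht.size_le
      have h6 : ((zl N (τ N)).size + 2) ^ kl ≤ ((zl N (τ N)).size + 2) ^ j :=
        Nat.pow_le_pow_right (by omega) (by omega)
      rw [dj'] at h3
      omega
    · omega
    · have hR : ∀ k ≤ i, RX D N (τ N) k = (r k).enc := fun k hk => by
        rw [eR]; exact hr k (by omega)
      rcases h4 with h4 | ⟨h4, h5⟩
      · exact h4 (check_complete hR fun k hk => hok k (by omega))
      · apply h5
        obtain ⟨x, y, s', t, a, b, h6, h7⟩ := hfin
        have h8 : bn (ℓ (zl N (τ N))) - 1 = i := by omega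
        rw [h8] at h6
        have h9 := final_complete hR (hok i h3) h6 h7
        have hTX : TX μ₁ fP₁ V₁.enc D N = (check V₁ (rfn (P₁ c κ) μ₁ N)).enc := by
          rw [TX, hD, T.right_node, hPq, decFm_enc, WE_eq]
        rw [hTX]
        exact h9
  refine ⟨prog cG cM cm cL D, kap β D, fun x => ⟨_, hprog D x⟩, ?_,
    j + 7, 100 * (D₀.size + 30) + m₁ + n₀ + 200, ?_⟩
  · -- the theory
    ext φ
    rw [hT₂f]
    show (φ ∈ S12 ∨ Accepts _ _ φ.enc) ↔ _
    rw [haccP]
    have : FF μ₁ fP₁ V₁.enc f₂ (T.node D (T.node φ.enc (WW2 D φ.enc))) = f₂ φ.enc := by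
      simp only [FF, T.left_node, T.right_node]
      rw [if_neg]
      rintro ⟨h1, h2⟩
      rw [← h1, badB_iff dK'] at h2
      exact hnb _ _ _ h2
    rw [this]
  · intro N m hN hm hclk
    -- a tree with a description or a proof has to be large
    have hmain : ∀ y : T, (DescY y m (check V₂ (rfn (P₂ (prog cG cM cm cL D) (kap β D))
          μ₂ m)).enc ∨
        IsProof S₂ (decProof y) (rfn (P₂ (prog cG cM cm cL D) (kap β D)) μ₂ m)) →
        N < 100 * (D₀.size + 10 + y.size + 2 * m + (bl N).size + 2 * τ N) + m₁ := by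
      intro y hy
      by_contra hcon
      refine hno (T.node D₀ (T.node (T.node y (zl N (τ N))) (T.unary m))) ?_
      have eN : vN (T.node D₀ (T.node (T.node y (zl N (τ N))) (T.unary m))) = N := bn_bl N
      have es : vs (T.node D₀ (T.node (T.node y (zl N (τ N))) (T.unary m))) = τ N :=
        T.len_unary _
      have em : vm (T.node D₀ (T.node (T.node y (zl N (τ N))) (T.unary m))) = m :=
        T.len_unary _
      have ej : D₀.left.right.len = j := by rw [hD₀]; exact T.len_unary _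
      unfold SuccL
      rw [eN, es, em]
      simp only [T.left_node, T.right_node]
      rw [ej]
      refine ⟨by omega, by rw [hD₀]; exact T.len_unary 1, ?_, ?_, hclk, ?_, ?_⟩
      · have : D₀.right.right.len = n₀ := by rw [hD₀]; exact T.len_unary n₀
        rw [this]; omega
      · simp only [zl, T.size, T.size_unary]
        omega
      · rw [outB_eq]
        · have h1 : D₀.left.left.right = ah.enc := by rw [hD₀]; rfl
          rw [h1, outX_spec hah (by omega)]
          exact (hτ N (τ N)).2 rfl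
        · refine le_trans ?_ hclk
          calc ((zl N (τ N)).size + 2) ^ j ≤ ((bl N).size + 2 * τ N + 10) ^ j := by
                refine Nat.pow_le_pow_left ?_ _
                simp only [zl, T.size, T.size_unary]; omega
            _ ≤ ((bl N).size + 2 * τ N + 10) ^ (j + 7) :=
                Nat.pow_le_pow_right (by omega) (by omega)
      · rw [← hD, progE_eq, hfPc₂, decFm_enc, WE_eq]
        exact hy
    obtain ⟨C, hC⟩ : ∃ C, C = 100 * (D₀.size + 30) + m₁ + n₀ + 200 := ⟨_, rfl⟩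
    rw [← hC]
    have hmul : ∀ Y : ℕ, 1 ≤ Y → C - 200 + 200 * Y ≤ C * Y := by
      intro Y hY1
      have h1 : C * Y = (C - 200) * Y + 200 * Y := by
        rw [← Nat.add_mul, Nat.sub_add_cancel (by rw [hC]; exact Nat.le_add_left _ _)]
      have h2 : C - 200 ≤ (C - 200) * Y := Nat.le_mul_of_pos_right _ hY1
      omega
    constructor
    · intro s B a b hdesc
      have h1 := hmain _ (Or.inl hdesc)
      have h2 := hmul (a.size + b.size + s + B + m + (bl N).size + τ N)
        (by have := T.size_pos a; omega)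
      simp only [T.size, T.size_unary] at h1
      omega
    · intro π hπ
      have h1 := hmain (encProof π) (Or.inr (by rw [decProof_enc]; exact hπ))
      have h2 := hmul ((encProof π).size + m + (bl N).size + τ N)
        (by have := T.size_pos (encProof π); omega)
      omega

end Pool.Agent.RU
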