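import Pool.Agent.RU.Defs
import Pool.Agent.RL.Main

/-!
# The local check on trees
-/

namespace Pool.Agent.RU

open Pool.Agent.H19
open Pool.Agent.H19.T

/-- The tree is the record of a tree node. -/
def kN (ρ : T) : Prop := ρ.left = T.unary 1

/-- The tree is a record of a step. -/
def kE (ρ : T) : Prop := ρ.left = T.unary 2

def fa (ρ : T) : ℕ := bn ρ.right.left
def fb (ρ : T) : ℕ := bn ρ.right.right
def fc (ρ : T) : T := ρ.right.left
def fx (ρ : T) : ℕ := bn ρ.right.right.left.left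
def fy (ρ : T) : ℕ := bn ρ.right.right.left.right
def fs (ρ : T) : ℕ := bn ρ.right.right.right.left
def ft (ρ : T) : ℕ := bn ρ.right.right.right.right

/-- The record is that of a step of the program with code `f`, from `x` to `y`. -/
def EvT (σ f : T) (x y : ℕ) : Prop := kE σ ∧ fc σ = f ∧ fx σ = x ∧ fy σ = y

/-- The record is that of a step of the program with code `f`, started on `x`. -/
def EvX (σ f : T) (x : ℕ) : Prop := kE σ ∧ fc σ = f ∧ fx σ = x

def TrT (ρ : T) : Prop := ρ = T.leaf ∨ kN ρ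

/-- The rules, on trees. `ρ` is the record, `X`, `Y`, `S`, `U` are those of its components. -/
def RuleT (R : ℕ → T) (i : ℕ) (ρ X Y S U : T) : Prop :=
  (fc ρ = Code.id.enc ∧ fy ρ = fx ρ) ∨
  (fc ρ = Code.leaf.enc ∧ Y = T.leaf) ∨
  (fc ρ = Code.fst.enc ∧ ((X = T.leaf ∧ Y = T.leaf) ∨ (kN X ∧ fa X = fy ρ))) ∨
  (fc ρ = Code.snd.enc ∧ ((X = T.leaf ∧ Y = T.leaf) ∨ (kN X ∧ fb X = fy ρ))) ∨
  ((fc ρ).left = T.unary 4 ∧ kN Y ∧ EvT S (fc ρ).right.left (fx ρ) (fa Y) ∧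
    EvT U (fc ρ).right.right (fx ρ) (fb Y)) ∨
  ((fc ρ).left = T.unary 5 ∧ EvX S (fc ρ).right.right (fx ρ) ∧
    EvT U (fc ρ).right.left (fy S) (fy ρ)) ∨
  ((fc ρ).left = T.unary 6 ∧ EvX S (fc ρ).right.left (fx ρ) ∧ fy S < i ∧
    ((R (fy S) = T.leaf ∧ EvT U (fc ρ).right.right.left (fx ρ) (fy ρ)) ∨
      (kN (R (fy S)) ∧ EvT U (fc ρ).right.right.right (fx ρ) (fy ρ)))) ∨
  ((fc ρ).left = T.unary 7 ∧ ((X = T.leaf ∧ Y = T.leaf) ∨
    (kN X ∧ fa X < i ∧ ((R (fa X) = T.leaf ∧ fb X = fy ρ) ∨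
      (kN (R (fa X)) ∧ EvX S (fc ρ).right (fx ρ) ∧ EvT U (fc ρ) (fy S) (fy ρ))))))

/-- The local check. -/
def CheckT (R : ℕ → T) (i : ℕ) : Prop :=
  R i = T.leaf ∨
  (kN (R i) ∧ (fa (R i) < i ∧ fb (R i) < i) ∧ TrT (R (fa (R i))) ∧ TrT (R (fb (R i)))) ∨
  (kE (R i) ∧ (∃ c : Code, fc (R i) = c.enc) ∧
    ((fx (R i) < i ∧ fy (R i) < i) ∧ fs (R i) < i ∧ ft (R i) < i) ∧
    (TrT (R (fx (R i))) ∧ TrT (R (fy (R i)))) ∧
    RuleT R i (R i) (R (fx (R i))) (R (fy (R i))) (R (fs (R i))) (R (ft (R i))))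

/-- The last record, for the program with code `W`. -/
def FinalT (R : ℕ → T) (i : ℕ) (W : T) : Prop :=
  kE (R i) ∧ fc (R i) = W ∧ fy (R i) < i ∧ kN (R (fy (R i)))

/-! ### Congruence -/

theorem RuleT_congr {R R' : ℕ → T} {i : ℕ} (h : ∀ k ≤ i, R k = R' k) (ρ X Y S U : T) :
    RuleT R i ρ X Y S U → RuleT R' i ρ X Y S U := by
  unfold RuleT
  rintro (h1 | h1 | h1 | h1 | h1 | h1 | h1 | h1)
  · exact Or.inl h1
  · exact Or.inr (Or.inl h1)
  · exact Or.inr (Or.inr (Or.inl h1))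
  · exact Or.inr (Or.inr (Or.inr (Or.inl h1)))
  · exact Or.inr (Or.inr (Or.inr (Or.inr (Or.inl h1))))
  · exact Or.inr (Or.inr (Or.inr (Or.inr (Or.inr (Or.inl h1)))))
  · obtain ⟨a, b, c, d⟩ := h1
    rw [h _ c.le] at d
    exact Or.inr (Or.inr (Or.inr (Or.inr (Or.inr (Or.inr (Or.inl ⟨a, b, c, d⟩))))))
  · obtain ⟨a, b⟩ := h1
    refine Or.inr (Or.inr (Or.inr (Or.inr (Or.inr (Or.inr (Or.inr ⟨a, ?_⟩))))))
    rcases b with b | ⟨b, c, d⟩
    · exact Or.inl b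
    · rw [h _ c.le] at d
      exact Or.inr ⟨b, c, d⟩

theorem CheckT_congr {R R' : ℕ → T} {i : ℕ} (h : ∀ k ≤ i, R k = R' k) :
    CheckT R i → CheckT R' i := by
  unfold CheckT
  rw [h i le_rfl]
  rintro (h1 | ⟨h1, ⟨h2, h3⟩, h4, h5⟩ | ⟨h1, h2, ⟨⟨h3, h4⟩, h5, h6⟩, ⟨h7, h8⟩, h9⟩)
  · exact Or.inl h1
  · rw [h _ h2.le] at h4
    rw [h _ h3.le] at h5
    exact Or.inr (Or.inl ⟨h1, ⟨h2, h3⟩, h4, h5⟩)
  · rw [h _ h3.le] at h7
    rw [h _ h4.le] at h8
    rw [h _ h3.le, h _ h4.le, h _ h5.le, h _ h6.le] at h9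
    exact Or.inr (Or.inr ⟨h1, h2, ⟨⟨h3, h4⟩, h5, h6⟩, ⟨h7, h8⟩, RuleT_congr h _ _ _ _ _ h9⟩)

theorem FinalT_congr {R R' : ℕ → T} {i : ℕ} {W : T} (h : ∀ k ≤ i, R k = R' k) :
    FinalT R i W → FinalT R' i W := by
  unfold FinalT
  rw [h i le_rfl]
  rintro ⟨h1, h2, h3, h4⟩
  rw [h _ h3.le] at h4
  exact ⟨h1, h2, h3, h4⟩

/-! ### Correct descriptions pass the check -/

theorem kN_leaf : ¬ kN T.leaf := by simp [kN, T.unary]

theorem kE_leaf : ¬ kE T.leaf := by simp [kE, T.unary]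

theorem TrT_of {R : ℕ → T} {r : ℕ → Rec} {k : ℕ} (h : R k = (r k).enc) (h1 : IsTree r k) :
    TrT (R k) := by
  rcases h1 with h1 | ⟨a, b, h1⟩
  · left; rw [h, h1]; rfl
  · right; rw [h, h1]; simp [kN, Rec.enc]

theorem EvT_of {R : ℕ → T} {r : ℕ → Rec} {k : ℕ} (h : R k = (r k).enc) {c : Code} {x y : ℕ}
    (h1 : Ev r k c x y) : EvT (R k) c.enc x y := by
  obtain ⟨s, t, h2⟩ := h1
  rw [h, h2]
  simp [EvT, kE, fc, fx, fy, Rec.enc]

theorem check_complete {R : ℕ → T} {r : ℕ → Rec} {i : ℕ} (h : ∀ k ≤ i, R k = (r k).enc)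
    (hok : ∀ k ≤ i, Ok r k) : CheckT R i := by
  have hi := hok i le_rfl
  have hR := h i le_rfl
  unfold Ok at hi
  unfold CheckT
  match hr : r i with
  | Rec.leaf =>
    left; rw [hR, hr]; rfl
  | Rec.node a b =>
    rw [hr] at hi
    obtain ⟨⟨h1, h2⟩, h3, h4⟩ := hi
    have ea : fa (R i) = a := by rw [hR, hr]; simp [fa, Rec.enc]
    have eb : fb (R i) = b := by rw [hR, hr]; simp [fb, Rec.enc]
    refine Or.inr (Or.inl ⟨by rw [hR, hr]; simp [kN, Rec.enc], ?_⟩)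
    rw [ea, eb]
    exact ⟨⟨h1, h3⟩, TrT_of (h _ h1.le) h2, TrT_of (h _ h3.le) h4⟩
  | Rec.eval c x y s t =>
    rw [hr] at hi
    obtain ⟨⟨h1, h2⟩, ⟨h3, h4⟩, h5, h6, h7⟩ := hi
    have ec : fc (R i) = c.enc := by rw [hR, hr]; simp [fc, Rec.enc]
    have ex : fx (R i) = x := by rw [hR, hr]; simp [fx, Rec.enc]
    have ey : fy (R i) = y := by rw [hR, hr]; simp [fy, Rec.enc]
    have es : fs (R i) = s := by rw [hR, hr]; simp [fs, Rec.enc]
    have et : ft (R i) = t := by rw [hR, hr]; simp [ft, Rec.enc]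
    refine Or.inr (Or.inr ⟨by rw [hR, hr]; simp [kE, Rec.enc], ⟨c, ec⟩, ?_⟩)
    rw [ex, ey, es, et]
    refine ⟨⟨⟨h1, h3⟩, h5, h6⟩, ⟨TrT_of (h _ h1.le) h2, TrT_of (h _ h3.le) h4⟩, ?_⟩
    unfold RuleT
    rw [ec, ex, ey]
    have leafOf : ∀ k ≤ i, r k = Rec.leaf → R k = T.leaf := fun k hk h8 => by
      rw [h k hk, h8]; rfl
    have nodeOf : ∀ k ≤ i, ∀ a b, r k = Rec.node a b → kN (R k) ∧ fa (R k) = a ∧
        fb (R k) = b := fun k hk a b h8 => by
      rw [h k hk, h8]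
      simp [kN, fa, fb, Rec.enc]
    -- the result of a premise is an earlier record
    have evlt : ∀ k < i, ∀ c x z, Ev r k c x z → z < i := by
      rintro k hk c x z ⟨s', t', h8⟩
      have := hok k hk.le
      unfold Ok at this
      rw [h8] at this
      have := this.2.1.1
      omega
    cases c with
    | id => exact Or.inl ⟨rfl, h7⟩
    | leaf => exact Or.inr (Or.inl ⟨rfl, leafOf y h3.le h7⟩)
    | fst =>
      refine Or.inr (Or.inr (Or.inl ⟨rfl, ?_⟩))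
      rcases h7 with ⟨h7, h8⟩ | ⟨b, h7⟩
      · exact Or.inl ⟨leafOf x h1.le h7, leafOf y h3.le h8⟩
      · obtain ⟨h8, h9, h10⟩ := nodeOf x h1.le _ _ h7
        exact Or.inr ⟨h8, h9⟩
    | snd =>
      refine Or.inr (Or.inr (Or.inr (Or.inl ⟨rfl, ?_⟩)))
      rcases h7 with ⟨h7, h8⟩ | ⟨b, h7⟩
      · exact Or.inl ⟨leafOf x h1.le h7, leafOf y h3.le h8⟩
      · obtain ⟨h8, h9, h10⟩ := nodeOf x h1.le _ _ h7
        exact Or.inr ⟨h8, h10⟩
    | pair f g =>
      obtain ⟨a, b, h8, h9, h10⟩ := h7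
      obtain ⟨h11, h12, h13⟩ := nodeOf y h3.le _ _ h8
      refine Or.inr (Or.inr (Or.inr (Or.inr (Or.inl ⟨by simp [Code.enc], h11, ?_, ?_⟩))))
      · rw [h12]
        simpa [Code.enc] using EvT_of (h s h5.le) h9
      · rw [h13]
        simpa [Code.enc] using EvT_of (h t h6.le) h10
    | comp f g =>
      obtain ⟨z, h8, h9⟩ := h7
      obtain ⟨k1, k2, k3, k4⟩ := EvT_of (h s h5.le) h8
      refine Or.inr (Or.inr (Or.inr (Or.inr (Or.inr (Or.inl ⟨by simp [Code.enc], ?_, ?_⟩)))))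
      · refine ⟨k1, ?_, k3⟩
        simpa [Code.enc] using k2
      · rw [k4]
        simpa [Code.enc] using EvT_of (h t h6.le) h9
    | ite d f g =>
      obtain ⟨z, h8, h9⟩ := h7
      obtain ⟨k1, k2, k3, k4⟩ := EvT_of (h s h5.le) h8
      have hz := evlt s h5 _ _ _ h8
      refine Or.inr (Or.inr (Or.inr (Or.inr (Or.inr (Or.inr (Or.inl ⟨by simp [Code.enc], ?_, ?_,
        ?_⟩))))))
      · refine ⟨k1, ?_, k3⟩
        simpa [Code.enc] using k2
      · rw [k4]; exact hz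
      · rw [k4]
        rcases h9 with ⟨h9, h10⟩ | ⟨a, b, h9, h10⟩
        · refine Or.inl ⟨leafOf z hz.le h9, ?_⟩
          simpa [Code.enc] using EvT_of (h t h6.le) h10
        · refine Or.inr ⟨(nodeOf z hz.le _ _ h9).1, ?_⟩
          simpa [Code.enc] using EvT_of (h t h6.le) h10
    | loop f =>
      refine Or.inr (Or.inr (Or.inr (Or.inr (Or.inr (Or.inr (Or.inr ⟨by simp [Code.enc],
        ?_⟩))))))
      have chlt : ∀ a b, r x = Rec.node a b → a < i := by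
        intro a b h8
        have := hok x h1.le
        unfold Ok at this
        rw [h8] at this
        have := this.1.1
        omega
      rcases h7 with ⟨h7, h8⟩ | ⟨a, h7, h8⟩ | ⟨a, b, a₁, a₂, z, h7, h8, h9, h10⟩
      · exact Or.inl ⟨leafOf x h1.le h7, leafOf y h3.le h8⟩
      · have ha := chlt a y h7
        obtain ⟨h11, h12, h13⟩ := nodeOf x h1.le _ _ h7
        refine Or.inr ⟨h11, by rw [h12]; exact ha, Or.inl ⟨?_, h13⟩⟩
        rw [h12]
        exact leafOf a ha.le h8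
      · have ha := chlt a b h7
        obtain ⟨h11, h12, h13⟩ := nodeOf x h1.le _ _ h7
        obtain ⟨k1, k2, k3, k4⟩ := EvT_of (h s h5.le) h9
        refine Or.inr ⟨h11, by rw [h12]; exact ha, Or.inr ⟨?_, ?_, ?_⟩⟩
        · rw [h12]
          exact (nodeOf a ha.le _ _ h8).1
        · refine ⟨k1, ?_, k3⟩
          simpa [Code.enc] using k2
        · rw [k4]
          exact EvT_of (h t h6.le) h10

theorem final_complete {R : ℕ → T} {r : ℕ → Rec} {i : ℕ} (h : ∀ k ≤ i, R k = (r k).enc)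
    (hok : Ok r i) {W : Code} {x y s t a b : ℕ} (h1 : r i = Rec.eval W x y s t)
    (h2 : r y = Rec.node a b) : FinalT R i W.enc := by
  have hR := h i le_rfl
  unfold Ok at hok
  rw [h1] at hok
  have hy : y < i := hok.2.1.1
  have ey : fy (R i) = y := by rw [hR, h1]; simp [fy, Rec.enc]
  refine ⟨by rw [hR, h1]; simp [kE, Rec.enc], by rw [hR, h1]; simp [fc, Rec.enc], ?_, ?_⟩
  · rw [ey]; exact hy
  · rw [ey, h y hy.le, h2]; simp [kN, Rec.enc]

/-! ### The check is sound -/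

open Classical in
/-- The tree described by a record. -/
noncomputable def val (R : ℕ → T) (i : ℕ) : T :=
  if h : kN (R i) ∧ fa (R i) < i ∧ fb (R i) < i then
    T.node (val R (fa (R i))) (val R (fb (R i))) else T.leaf
termination_by i
decreasing_by
  · exact h.2.1
  · exact h.2.2

theorem val_leaf {R : ℕ → T} {i : ℕ} (h : R i = T.leaf) : val R i = T.leaf := by
  rw [val, dif_neg]
  rw [h]
  exact fun h1 => kN_leaf h1.1

theorem val_node {R : ℕ → T} {i : ℕ} (h : CheckT R i) (h1 : kN (R i)) :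
    val R i = T.node (val R (fa (R i))) (val R (fb (R i))) := by
  rw [val, dif_pos]
  rcases h with h | ⟨_, h2, _⟩ | ⟨h2, _⟩
  · rw [h] at h1; exact absurd h1 kN_leaf
  · exact ⟨h1, h2⟩
  · exfalso
    unfold kN at h1
    unfold kE at h2
    rw [h1] at h2
    simp [T.unary] at h2

theorem check_sound {R : ℕ → T} {L : ℕ} (h : ∀ i < L, CheckT R i) :
    ∀ i < L, ∀ c : Code, kE (R i) → fc (R i) = c.enc →
      ∃ t, Eval c (val R (fx (R i))) (val R (fy (R i))) t := by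
  intro i
  induction i using Nat.strong_induction_on with
  | _ i ih =>
  intro hi c hk hc
  have hch := h i hi
  have hev : ∀ k < i, ∀ (d : Code) (x y : ℕ), EvT (R k) d.enc x y →
      ∃ t, Eval d (val R x) (val R y) t := by
    rintro k hk' d x y ⟨h1, h2, h3, h4⟩
    have := ih k hk' (by omega) d h1 h2
    rwa [h3, h4] at this
  have hex : ∀ k < i, ∀ (d : Code) (x : ℕ), EvX (R k) d.enc x →
      ∃ t, Eval d (val R x) (val R (fy (R k))) t := by
    rintro k hk' d x ⟨h1, h2, h3⟩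
    exact hev k hk' d x _ ⟨h1, h2, h3, rfl⟩
  rcases hch with h1 | ⟨h1, _⟩ | ⟨_, _, ⟨⟨h1, h2⟩, h3, h4⟩, _, h5⟩
  · rw [h1] at hk; exact absurd hk kE_leaf
  · unfold kN at h1
    unfold kE at hk
    rw [h1] at hk
    simp [T.unary] at hk
  have hx := h _ (h1.trans hi)
  have hy := h _ (h2.trans hi)
  unfold RuleT at h5
  rw [hc] at h5
  generalize hX : fx (R i) = x at *
  generalize hY : fy (R i) = y at *
  generalize hS : fs (R i) = s at *
  generalize hU : ft (R i) = t at *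
  cases c with
  | id =>
    simp only [Code.enc, T.left_node, T.unary] at h5
    simp at h5
    rw [h5]
    exact ⟨_, Eval.id _⟩
  | leaf =>
    simp only [Code.enc, T.left_node, T.unary] at h5
    simp at h5
    rw [val_leaf h5]
    exact ⟨_, Eval.leaf _⟩
  | fst =>
    simp only [Code.enc, T.left_node, T.unary] at h5
    simp at h5
    rcases h5 with ⟨h5, h6⟩ | ⟨h5, h6⟩
    · rw [val_leaf h5, val_leaf h6]
      exact ⟨_, Eval.fst T.leaf⟩
    · rw [val_node hx h5, h6]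
      exact ⟨_, Eval.fst _⟩
  | snd =>
    simp only [Code.enc, T.left_node, T.unary] at h5
    simp at h5
    rcases h5 with ⟨h5, h6⟩ | ⟨h5, h6⟩
    · rw [val_leaf h5, val_leaf h6]
      exact ⟨_, Eval.snd T.leaf⟩
    · rw [val_node hx h5, h6]
      exact ⟨_, Eval.snd _⟩
  | pair f g =>
    simp only [Code.enc, T.left_node, T.right_node, T.unary] at h5
    simp at h5
    obtain ⟨h6, h7, h8⟩ := h5
    rw [val_node hy h6]
    obtain ⟨t1, h9⟩ := hev s h3 f _ _ h7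
    obtain ⟨t2, h10⟩ := hev t h4 g _ _ h8
    exact ⟨_, Eval.pair h9 h10⟩
  | comp f g =>
    simp only [Code.enc, T.left_node, T.right_node, T.unary] at h5
    simp at h5
    obtain ⟨h7, h8⟩ := h5
    obtain ⟨t1, h9⟩ := hex s h3 g _ h7
    obtain ⟨t2, h10⟩ := hev t h4 f _ _ h8
    exact ⟨_, Eval.comp h9 h10⟩
  | ite d f g =>
    simp only [Code.enc, T.left_node, T.right_node, T.unary] at h5
    simp at h5
    obtain ⟨h7, h8, h9⟩ := h5
    obtain ⟨t1, h10⟩ := hex s h3 d _ h7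
    rcases h9 with ⟨h9, h11⟩ | ⟨h9, h11⟩
    · obtain ⟨t2, h12⟩ := hev t h4 f _ _ h11
      rw [val_leaf h9] at h10
      exact ⟨_, Eval.ite_leaf h10 h12⟩
    · obtain ⟨t2, h12⟩ := hev t h4 g _ _ h11
      rw [val_node (h _ (h8.trans hi)) h9] at h10
      exact ⟨_, Eval.ite_node h10 h12⟩
  | loop f =>
    simp only [Code.enc, T.left_node, T.right_node, T.unary] at h5
    simp at h5
    rcases h5 with ⟨h5, h6⟩ | ⟨h5, h6, ⟨h7, h8⟩ | ⟨h7, h8, h9⟩⟩
    · rw [val_leaf h5, val_leaf h6]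
      exact ⟨_, Eval.loop_stop (x := T.leaf) rfl⟩
    · rw [val_node hx h5, h8]
      refine ⟨_, Eval.loop_stop ?_⟩
      rw [T.left_node, val_leaf h7]
    · obtain ⟨t1, h10⟩ := hex s h3 f _ h8
      obtain ⟨t2, h11⟩ := hev t h4 (Code.loop f) _ _ h9
      refine ⟨_, Eval.loop_step ?_ h10 h11⟩
      rw [val_node hx h5, T.left_node, val_node (h _ (h6.trans hi)) h7]
      simp

end Pool.Agent.RU
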