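import Pool.Agent.Lib_helper19.Classes
import Pool.Agent.Lib_helper19.Binary

/-!
# Locally computable descriptions of computations

A computation of a program (a derivation of `Eval`) is described by a sequence of numbered records:
records of trees, with numbers of earlier records as subtrees, and records of steps, each with the
numbers of its premises. Trees and premises may be shared. A description is locally computable in
time `τ(n)` if each record can be computed, from `n` and its own number in binary, in time
polynomial in `τ(n)` and the lengths of these numbers.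
-/

namespace Pool.Agent.RU

open Pool.Agent.H19

/-- Records. `leaf` and `node a b` describe trees, where `a`, `b` are the numbers of the records of
the subtrees. `eval c x y s t` says that the program `c`, started on the tree number `x`, halts
with result the tree number `y`; here `s` and `t` are the numbers of the records of the premises
(any numbers if there is no such premise). -/
inductive Rec : Type
  | leaf : Rec
  | node : ℕ → ℕ → Rec
  | eval : Code → ℕ → ℕ → ℕ → ℕ → Rec

/-- Records as trees; numbers are written in binary. -/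
def Rec.enc : Rec → T
  | Rec.leaf => T.leaf
  | Rec.node a b => T.node (T.unary 1) (T.node (bl a) (bl b))
  | Rec.eval c x y s t =>
      T.node (T.unary 2) (T.node c.enc (T.node (T.node (bl x) (bl y)) (T.node (bl s) (bl t))))

/-- The record number `s` says that `c`, started on tree number `x`, yields tree number `y`. -/
def Ev (r : ℕ → Rec) (s : ℕ) (c : Code) (x y : ℕ) : Prop :=
  ∃ s' t', r s = Rec.eval c x y s' t'

/-- The rules for steps, as in `Eval`: `c`, started on tree number `x`, yields tree number `y`,
by the premises in the records number `s` and `t`. -/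
def Rule (r : ℕ → Rec) : Code → ℕ → ℕ → ℕ → ℕ → Prop
  | Code.id, x, y, _, _ => y = x
  | Code.leaf, _, y, _, _ => r y = Rec.leaf
  | Code.fst, x, y, _, _ => (r x = Rec.leaf ∧ r y = Rec.leaf) ∨ ∃ b, r x = Rec.node y b
  | Code.snd, x, y, _, _ => (r x = Rec.leaf ∧ r y = Rec.leaf) ∨ ∃ a, r x = Rec.node a y
  | Code.pair f g, x, y, s, t => ∃ a b, r y = Rec.node a b ∧ Ev r s f x a ∧ Ev r t g x b
  | Code.comp f g, x, y, s, t => ∃ z, Ev r s g x z ∧ Ev r t f z y
  | Code.ite c f g, x, y, s, t => ∃ z, Ev r s c x z ∧
      ((r z = Rec.leaf ∧ Ev r t f x y) ∨ ∃ a b, r z = Rec.node a b ∧ Ev r t g x y)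
  | Code.loop f, x, y, s, t => (r x = Rec.leaf ∧ r y = Rec.leaf) ∨
      (∃ a, r x = Rec.node a y ∧ r a = Rec.leaf) ∨
      ∃ a b a₁ a₂ z, r x = Rec.node a b ∧ r a = Rec.node a₁ a₂ ∧
        Ev r s f x z ∧ Ev r t (Code.loop f) z y

/-- The record number `i` describes a tree. -/
def IsTree (r : ℕ → Rec) (i : ℕ) : Prop := r i = Rec.leaf ∨ ∃ a b, r i = Rec.node a b

/-- The record number `i` is correct: it refers to earlier records only, of the right kind, and a
step follows from its premises. -/
def Ok (r : ℕ → Rec) (i : ℕ) : Prop :=
  match r i with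
  | Rec.leaf => True
  | Rec.node a b => (a < i ∧ IsTree r a) ∧ b < i ∧ IsTree r b
  | Rec.eval c x y s t =>
      (x < i ∧ IsTree r x) ∧ (y < i ∧ IsTree r y) ∧ s < i ∧ t < i ∧ Rule r c x y s t

/-- The records number `0, …, L - 1` are correct, and the last one says that the program `W`,
started on some tree, accepts (its result is not a leaf). -/
def Accepting (r : ℕ → Rec) (L : ℕ) (W : Code) : Prop :=
  0 < L ∧ (∀ i < L, Ok r i) ∧
    ∃ x y s t a b, r (L - 1) = Rec.eval W x y s t ∧ r y = Rec.node a b

/-- `s = τ(n)` can be decided in time polynomial in the length of `n` and in `s`. -/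
def Constructible (τ : ℕ → ℕ) : Prop :=
  ∃ f : T → T, PolyTime f ∧ ∀ n s : ℕ, f (T.node (bl n) (T.unary s)) ≠ T.leaf ↔ s = τ n

/-- `τ(n) = n ^ o(1)`. -/
def Subpolynomial (τ : ℕ → ℕ) : Prop := ∀ e : ℕ, ∃ n₀ : ℕ, ∀ n ≥ n₀, τ n ^ e ≤ n

/-- For large `n` there is an accepting computation of the program `W n` described by `L n` records
which are locally computable in time `n ^ o(1)`: the record number `i` is computed from `n` and `i`
in binary and from `τ n` in unary in polynomial time, and the number `L n` of records is computed
from `n` in binary and from `τ n` in unary in polynomial time. -/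
def LocallyComputable (L : ℕ → ℕ) (W : ℕ → Code) : Prop :=
  ∃ (τ : ℕ → ℕ) (ℓ g : T → T) (r : ℕ → ℕ → Rec) (n₀ : ℕ),
    Constructible τ ∧ Subpolynomial τ ∧ PolyTime ℓ ∧ PolyTime g ∧ ∀ n ≥ n₀,
      ℓ (T.node (bl n) (T.unary (τ n))) = bl (L n) ∧
      (∀ i < L n, g (T.node (bl n) (T.node (bl i) (T.unary (τ n)))) = (r n i).enc) ∧
      Accepting (r n) (L n) (W n)

/-- `V` is a sound proof checker for `S`: it accepts a pair of a tree and a formula only if the
formula is provable in `S`. -/
def SoundChecker (S : Set Fm) (V : Code) : Prop :=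
  ∀ (y z : T) (φ : Fm) (t : ℕ), Eval V (T.node y φ.enc) z t → z ≠ T.leaf → Provable S φ

/-- The program `V` with the formula `φ` as second argument. -/
def check (V : Code) (φ : Fm) : Code := Code.comp V (Code.pair Code.id (Code.const φ.enc))

/-- For all `S` and `T₀` in the class, the theory `T₀` is given by a clocked program `(c, κ)` such
that the `S`-proofs of the reflection sentences of `theory c κ` for `n` are longer than every
polynomial in `n`. -/
def LongProofs : Prop :=
  ∀ (μ : Fm) (_ : IsUniversal μ) (P : Code → ℕ → Fm) (_ : IsFormalisation μ P)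
    (S T₀ : Set Fm) (_ : InClassT S) (_ : InClassT T₀),
    ∃ (c : Code) (κ : ℕ), HaltsWithin c κ ∧ theory c κ = T₀ ∧
      ∀ k : ℕ, ∃ n₀ : ℕ, ∀ n ≥ n₀, ∀ π : List Step, IsProof S π (rfn (P c κ) μ n) →
        n ^ k < (encProof π).size

end Pool.Agent.RU
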