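import Pool.Agent.RU.Check
import Pool.Agent.Lib_helper19.CheckP

/-!
# The local check is decidable in polynomial time
-/

namespace Pool.Agent.RU

open Pool.Agent.H19
open Pool.Agent.H19.T

section

variable {G : T → T} (hG : PolyTime G)
include hG

/-- The record with a given number. -/
theorem rec_polyTime {p : T → ℕ} (hp : PolyN p) :
    PolyTime (fun z => G (T.node z (bl (p z)))) :=
  hG.comp (PolyTime.id.node hp)

end

theorem polyN_bn {p : T → T} (hp : PolyTime p) : PolyN (fun z => bn (p z)) :=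
  canon_polyTime.comp hp

theorem kN_dec {p : T → T} (hp : PolyTime p) : PolyDec (fun z => kN (p z)) :=
  PolyDec.eq hp.left (PolyTime.const _)

theorem kE_dec {p : T → T} (hp : PolyTime p) : PolyDec (fun z => kE (p z)) :=
  PolyDec.eq hp.left (PolyTime.const _)

theorem leaf_dec {p : T → T} (hp : PolyTime p) : PolyDec (fun z => p z = T.leaf) :=
  PolyDec.eq hp (PolyTime.const _)

theorem fa_poly {p : T → T} (hp : PolyTime p) : PolyN (fun z => fa (p z)) :=
  polyN_bn hp.right.left
theorem fb_poly {p : T → T} (hp : PolyTime p) : PolyN (fun z => fb (p z)) :=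
  polyN_bn hp.right.right
theorem fc_poly {p : T → T} (hp : PolyTime p) : PolyTime (fun z => fc (p z)) :=
  hp.right.left
theorem fx_poly {p : T → T} (hp : PolyTime p) : PolyN (fun z => fx (p z)) :=
  polyN_bn hp.right.right.left.left
theorem fy_poly {p : T → T} (hp : PolyTime p) : PolyN (fun z => fy (p z)) :=
  polyN_bn hp.right.right.left.right
theorem fs_poly {p : T → T} (hp : PolyTime p) : PolyN (fun z => fs (p z)) :=
  polyN_bn hp.right.right.right.left
theorem ft_poly {p : T → T} (hp : PolyTime p) : PolyN (fun z => ft (p z)) :=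
  polyN_bn hp.right.right.right.right

theorem EvT_dec {σ f : T → T} {x y : T → ℕ} (hσ : PolyTime σ) (hf : PolyTime f) (hx : PolyN x)
    (hy : PolyN y) : PolyDec (fun z => EvT (σ z) (f z) (x z) (y z)) :=
  (kE_dec hσ).and ((PolyDec.eq (fc_poly hσ) hf).and
    ((PolyDec.eqN (fx_poly hσ) hx).and (PolyDec.eqN (fy_poly hσ) hy)))

theorem EvX_dec {σ f : T → T} {x : T → ℕ} (hσ : PolyTime σ) (hf : PolyTime f) (hx : PolyN x) :
    PolyDec (fun z => EvX (σ z) (f z) (x z)) :=
  (kE_dec hσ).and ((PolyDec.eq (fc_poly hσ) hf).and (PolyDec.eqN (fx_poly hσ) hx))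

theorem TrT_dec {p : T → T} (hp : PolyTime p) : PolyDec (fun z => TrT (p z)) :=
  (leaf_dec hp).or (kN_dec hp)

theorem ltN {f g : T → ℕ} (hf : PolyN f) (hg : PolyN g) : PolyDec (fun z => f z < g z) :=
  (PolyDec.leN hg hf).not.congr fun _ => Nat.not_le

theorem RuleT_dec {G : T → T} (hG : PolyTime G) {i : T → ℕ} (hi : PolyN i)
    {ρ X Y S U : T → T} (hρ : PolyTime ρ) (hX : PolyTime X) (hY : PolyTime Y) (hS : PolyTime S)
    (hU : PolyTime U) : PolyDec (fun z => RuleT (fun k => G (T.node z (bl k))) (i z) (ρ z) (X z)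
      (Y z) (S z) (U z)) := by
  have c : ∀ a : T, PolyTime (fun _ => a) := fun a => PolyTime.const a
  have hc := fc_poly hρ
  have hx := fx_poly hρ
  have hy := fy_poly hρ
  have hZ : PolyTime (fun z => G (T.node z (bl (fy (S z))))) := rec_polyTime hG (fy_poly hS)
  have hV : PolyTime (fun z => G (T.node z (bl (fa (X z))))) := rec_polyTime hG (fa_poly hX)
  refine ((PolyDec.eq hc (c _)).and (PolyDec.eqN hy hx)).or ?_
  refine ((PolyDec.eq hc (c _)).and (leaf_dec hY)).or ?_
  refine ((PolyDec.eq hc (c _)).and (((leaf_dec hX).and (leaf_dec hY)).or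
    ((kN_dec hX).and (PolyDec.eqN (fa_poly hX) hy)))).or ?_
  refine ((PolyDec.eq hc (c _)).and (((leaf_dec hX).and (leaf_dec hY)).or
    ((kN_dec hX).and (PolyDec.eqN (fb_poly hX) hy)))).or ?_
  refine ((PolyDec.eq hc.left (c _)).and ((kN_dec hY).and
    ((EvT_dec hS hc.right.left hx (fa_poly hY)).and
      (EvT_dec hU hc.right.right hx (fb_poly hY))))).or ?_
  refine ((PolyDec.eq hc.left (c _)).and ((EvX_dec hS hc.right.right hx).and
    (EvT_dec hU hc.right.left (fy_poly hS) hy))).or ?_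
  refine ((PolyDec.eq hc.left (c _)).and ((EvX_dec hS hc.right.left hx).and
    ((ltN (fy_poly hS) hi).and (((leaf_dec hZ).and (EvT_dec hU hc.right.right.left hx hy)).or
      ((kN_dec hZ).and (EvT_dec hU hc.right.right.right hx hy)))))).or ?_
  exact (PolyDec.eq hc.left (c _)).and (((leaf_dec hX).and (leaf_dec hY)).or
    ((kN_dec hX).and ((ltN (fa_poly hX) hi).and
      (((leaf_dec hV).and (PolyDec.eqN (fb_poly hX) hy)).or
        ((kN_dec hV).and ((EvX_dec hS hc.right hx).and
          (EvT_dec hU hc (fy_poly hS) hy)))))))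

theorem CheckT_dec {G : T → T} (hG : PolyTime G) {i : T → ℕ} (hi : PolyN i) :
    PolyDec (fun z => CheckT (fun k => G (T.node z (bl k))) (i z)) := by
  have hρ := rec_polyTime hG hi
  have hA := rec_polyTime hG (fa_poly hρ)
  have hB := rec_polyTime hG (fb_poly hρ)
  have hX := rec_polyTime hG (fx_poly hρ)
  have hY := rec_polyTime hG (fy_poly hρ)
  have hS := rec_polyTime hG (fs_poly hρ)
  have hU := rec_polyTime hG (ft_poly hρ)
  refine (leaf_dec hρ).or ?_
  refine ((kN_dec hρ).and (((ltN (fa_poly hρ) hi).and (ltN (fb_poly hρ) hi)).and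
    ((TrT_dec hA).and (TrT_dec hB)))).or ?_
  exact (kE_dec hρ).and ((isCode_polyDec.comp (fc_poly hρ)).and
    ((((ltN (fx_poly hρ) hi).and (ltN (fy_poly hρ) hi)).and
      ((ltN (fs_poly hρ) hi).and (ltN (ft_poly hρ) hi))).and
      (((TrT_dec hX).and (TrT_dec hY)).and (RuleT_dec hG hi hρ hX hY hS hU))))

theorem FinalT_dec {G : T → T} (hG : PolyTime G) {i : T → ℕ} (hi : PolyN i) {W : T → T}
    (hW : PolyTime W) :
    PolyDec (fun z => FinalT (fun k => G (T.node z (bl k))) (i z) (W z)) := by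
  have hρ := rec_polyTime hG hi
  have hY := rec_polyTime hG (fy_poly hρ)
  exact (kE_dec hρ).and ((PolyDec.eq (fc_poly hρ) hW).and ((ltN (fy_poly hρ) hi).and (kN_dec hY)))

end Pool.Agent.RU
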