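import Pool.Agent.RU.Ball
import Pool.Agent.RL.Main

/-!
# The theory which reports local errors
-/

namespace Pool.Agent.RU

open Pool.Agent.H19
open Pool.Agent.H19.T
open Pool.Agent.RL

/-! ### Powers truncated at a bound -/

theorem minPow {f g h : T → ℕ} (hf : PolyNat f) (hg : PolyNat g) (hh : PolyNat h) :
    PolyNat (fun x => min (f x ^ h x) (g x)) := by
  have i := PolyTime.id
  have hstep : PolyTime tStep := by
    refine i.left.node ?_
    exact PolyNat.min ((PolyNat.len i.right).mul (PolyNat.len i.left.left))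
      (PolyNat.len i.left.right)
  have h0 : PolyTime (fun x => T.node (T.node (T.unary (f x)) (T.unary (g x)))
      (T.unary (min 1 (g x)))) :=
    (hf.unary.node hg.unary).node (PolyNat.min (PolyNat.const 1) hg)
  have hit := PolyTime.iterate hstep hh.unary h0 (by
    obtain ⟨a, ha⟩ := PolyTime.size_bound hf
    obtain ⟨b, hb⟩ := PolyTime.size_bound hg
    obtain ⟨k, hk⟩ : PolyB (fun n => (n + 2) ^ a + (n + 2) ^ b + (n + 2) ^ b + 2) :=
      ((PolyB.add (PolyB.add ⟨a, fun _ => le_rfl⟩ ⟨b, fun _ => le_rfl⟩)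
        ⟨b, fun _ => le_rfl⟩)).add (PolyB.const 2)
    refine ⟨k, fun x i _ => le_trans ?_ (hk x.size)⟩
    rw [tStep_iterate]
    have h1 := ha x
    have h2 := hb x
    have h3 : min (f x ^ i) (g x) ≤ g x := min_le_right _ _
    simp only [T.size, T.size_unary] at h1 h2 ⊢
    omega)
  refine (PolyNat.len hit.right).congr fun x => ?_
  beta_reduce
  rw [T.len_unary, tStep_iterate, T.right_node, T.len_unary]

/-! ### Clocked simulation -/

/-- The output of the program coded by `a` on `z`, with the clock `(size z + 2) ^ j`. -/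
def outX (a : T) (j : ℕ) (z : T) : T :=
  simul (T.node a (T.node z (T.unary ((z.size + 2) ^ j))))

/-- The same, with the clock truncated at `B`. -/
def outB (a : T) (j B : ℕ) (z : T) : T :=
  simul (T.node a (T.node z (T.unary (min ((z.size + 2) ^ j) B))))

theorem outB_eq {a : T} {j B : ℕ} {z : T} (h : (z.size + 2) ^ j ≤ B) :
    outB a j B z = outX a j z := by
  rw [outB, outX, min_eq_left h]

theorem outX_spec {c : Code} {f : T → T} {k j : ℕ}
    (h : ∀ x : T, ∃ t : ℕ, Eval c x (f x) t ∧ t ≤ (x.size + 2) ^ k) (hj : k ≤ j) (z : T) :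
    outX c.enc j z = f z := by
  obtain ⟨t, ht, hb⟩ := h z
  exact simul_spec ht (hb.trans (Nat.pow_le_pow_right (by omega) hj))

theorem outB_poly {a z : T → T} {j B : T → ℕ} (ha : PolyTime a) (hj : PolyNat j)
    (hB : PolyNat B) (hz : PolyTime z) : PolyTime (fun x => outB (a x) (j x) (B x) (z x)) :=
  simul_polyTime.comp (ha.node (hz.node
    (minPow ((PolyNat.size hz).add (PolyNat.const 2)) hB hj).unary))

/-! ### The program `W` with the formula -/

/-- The code of `check V φ`, from the codes of `V` and `φ`. -/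
def WE (V θ : T) : T :=
  T.node (T.unary 5) (T.node V (T.node (T.unary 4) (T.node Code.id.enc (qt θ))))

theorem WE_eq (V : Code) (φ : Fm) : WE V.enc φ.enc = (check V φ).enc := by
  simp only [WE, check, Code.enc, qt_eq]

theorem WE_poly (V : T) {θ : T → T} (h : PolyTime θ) : PolyTime (fun z => WE V (θ z)) := by
  have c : ∀ a : T, PolyTime (fun _ => a) := fun a => PolyTime.const a
  exact (c _).node ((c _).node ((c _).node ((c _).node (qt_polyTime.comp h))))

theorem rfn_polyTimeN (μ : Fm) {g : T → T} {f : T → ℕ} (hg : PolyTime g) (hf : PolyN f) :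
    PolyTime (fun x => (rfn (decFm (g x)) μ (f x)).enc) := by
  have L := PolyTime.leaf
  have c : ∀ a : T, PolyTime (fun _ => a) := fun a => PolyTime.const a
  have I : ∀ {f g : T → T}, PolyTime f → PolyTime g → PolyTime (fun x =>
    T.node (T.unary 11) (T.node (f x) (g x))) := fun hf hg => (c _).node (hf.node hg)
  have A : ∀ {f : T → T}, PolyTime f → PolyTime (fun x =>
    T.node (T.unary 12) (T.node (f x) T.leaf)) := fun hf => (c _).node (hf.node L)
  have LE : ∀ i : ℕ, PolyTime (fun x => T.node (T.unary 10) (T.node (Tm.len (Tm.var i)).enc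
    (Tm.numeral (f x)).enc)) := fun i => (c _).node ((c _).node hf.numeral)
  exact A (A (A (A (I (LE 0) (I (LE 1) (I (LE 2) (I (LE 3)
    (I (normFm_polyTime.comp hg) (c μ.enc)))))))))

/-! ### Errors -/

/-! The data are
`D = node (node (node (node (node a_g a_ℓ) a_τ) (unary j)) (node (unary 1) (unary n₀))) q`. -/

def dG (D : T) : T := D.left.left.left.left.left
def dL (D : T) : T := D.left.left.left.left.right
def dT (D : T) : T := D.left.left.left.right
def dj (D : T) : ℕ := D.left.left.right.len
def dn (D : T) : ℕ := D.left.right.right.len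

/-- The argument of the programs, without and with the number of a record. -/
def zl (N s : ℕ) : T := T.node (bl N) (T.unary s)
def zr (N s k : ℕ) : T := T.node (bl N) (T.node (bl k) (T.unary s))

/-- The records, with exact clocks. -/
def RX (D : T) (N s k : ℕ) : T := outX (dG D) (dj D) (zr N s k)

/-- The output of the second program. -/
def OX (D : T) (N s : ℕ) : T := outX (dL D) (dj D) (zl N s)

section
variable (μ : Fm) (fP : T → T) (V : T)

/-- The target. -/
def TX (D : T) (N : ℕ) : T := WE V (rfn (decFm (fP D.right)) μ N).enc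

/-- There is an error at `(N, s, i)`. -/
def BadX (D : T) (N s i : ℕ) : Prop :=
  dn D ≤ N ∧ outX (dT D) (dj D) (zl N s) ≠ T.leaf ∧
    (((zl N s).size + 2) ^ dj D < (OX D N s).size ∨ bn (OX D N s) = 0 ∨
      (i < bn (OX D N s) ∧ (¬ CheckT (RX D N s) i ∨
        (i + 1 = bn (OX D N s) ∧ ¬ FinalT (RX D N s) i (TX μ fP V D N)))))

/-! The argument of the decider is `Z = node D (node x (node _ (unary B)))`. -/

def zB (Z : T) : ℕ := Z.right.right.right.len
def zN (Z : T) : ℕ := bn (unfalsum Z.right.left).left.left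
def zs (Z : T) : ℕ := (unfalsum Z.right.left).left.right.len
def zi (Z : T) : ℕ := bn (unfalsum Z.right.left).right

/-- The records, as a function of `node Z (bl k)`. -/
def GB (y : T) : T := outB (dG y.left.left) (dj y.left.left) (zB y.left)
  (T.node (bl (zN y.left)) (T.node y.right (T.unary (zs y.left))))

/-- The output of the second program. -/
def OB (Z : T) : T := outB (dL Z.left) (dj Z.left) (zB Z) (zl (zN Z) (zs Z))

def BadB (Z : T) : Prop :=
  dn Z.left ≤ zN Z ∧ outB (dT Z.left) (dj Z.left) (zB Z) (zl (zN Z) (zs Z)) ≠ T.leaf ∧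
    (min (((zl (zN Z) (zs Z)).size + 2) ^ dj Z.left) (zB Z) < (OB Z).size ∨
    bn (OB Z) = 0 ∨ (zi Z < bn (OB Z) ∧
      (¬ CheckT (fun k => GB (T.node Z (bl k))) (zi Z) ∨ (zi Z + 1 = bn (OB Z) ∧
        ¬ FinalT (fun k => GB (T.node Z (bl k))) (zi Z) (TX μ fP V Z.left (zN Z))))))

open Classical in
/-- The decider of the theory which reports errors. -/
noncomputable def FF (f₀ : T → T) (Z : T) : T :=
  if (falsum (unfalsum Z.right.left)).enc = Z.right.left ∧ BadB μ fP V Z
  then T.node T.leaf T.leaf else f₀ Z.right.left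

end

theorem uf_poly : PolyTime (fun z : T => unfalsum z.right.left) :=
  uu_polyTime.comp PolyTime.id.right.left.right.left.right.left

theorem zN_poly : PolyN zN := polyN_bn uf_poly.left.left

theorem zs_poly : PolyNat zs := PolyNat.len uf_poly.left.right

theorem zi_poly : PolyN zi := polyN_bn uf_poly.right

theorem GB_poly : PolyTime GB := by
  have i := PolyTime.id
  have hN : PolyTime (fun y : T => bl (zN y.left)) := PolyTime.comp zN_poly i.left
  have hs : PolyTime (fun y : T => T.unary (zs y.left)) := PolyTime.comp zs_poly i.left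
  exact outB_poly i.left.left.left.left.left.left.left (PolyNat.len i.left.left.left.left.right)
    (PolyNat.len i.left.right.right.right) (hN.node (i.right.node hs))

theorem zl_poly : PolyTime (fun Z : T => zl (zN Z) (zs Z)) :=
  PolyTime.node zN_poly zs_poly.unary

theorem OB_poly : PolyTime OB := by
  have i := PolyTime.id
  exact outB_poly i.left.left.left.left.left.right (PolyNat.len i.left.left.left.right)
    (PolyNat.len i.right.right.right) zl_poly

theorem BadB_dec (μ : Fm) {fP : T → T} (hfP : PolyTime fP) (V : T) :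
    PolyDec (BadB μ fP V) := by
  have i := PolyTime.id
  have hN := zN_poly
  have hi := zi_poly
  have hO := OB_poly
  have hL : PolyN (fun Z => bn (OB Z)) := polyN_bn hO
  have hT : PolyTime (fun Z => TX μ fP V Z.left (zN Z)) :=
    WE_poly V (rfn_polyTimeN μ (hfP.comp i.left.right) hN)
  have hclk : PolyNat (fun Z => min (((zl (zN Z) (zs Z)).size + 2) ^ dj Z.left) (zB Z)) :=
    minPow ((PolyNat.size zl_poly).add (PolyNat.const 2)) (PolyNat.len i.right.right.right)
      (PolyNat.len i.left.left.left.right)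
  have hA : PolyTime (fun Z => outB (dT Z.left) (dj Z.left) (zB Z) (zl (zN Z) (zs Z))) :=
    outB_poly i.left.left.left.left.right (PolyNat.len i.left.left.left.right)
      (PolyNat.len i.right.right.right) zl_poly
  refine (PolyDec.leN (PolyNat.len i.left.left.right.right).toN hN).and ?_
  refine (PolyDec.ne_leaf hA).and ?_
  refine ((PolyDec.le (PolyNat.size hO) hclk).not.congr fun _ => Nat.not_le).or ?_
  refine (PolyDec.eqN hL (PolyNat.const 0).toN).or ?_
  refine (ltN hi hL).and ((CheckT_dec GB_poly hi).not.or ?_)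
  refine (PolyDec.eqN (hi.add (PolyNat.const 1).toN) hL).and ?_
  exact (FinalT_dec GB_poly hi hT).not

theorem FF_poly (μ : Fm) {fP f₀ : T → T} (hfP : PolyTime fP) (hf₀ : PolyTime f₀) (V : T) :
    PolyTime (FF μ fP V f₀) := by
  have i := PolyTime.id
  have hdec : PolyDec (fun z : T => (falsum (unfalsum z.right.left)).enc = z.right.left ∧
    BadB μ fP V z) :=
    (PolyDec.eq (falsum_polyTime.comp uf_poly) i.right.left).and (BadB_dec μ hfP V)
  refine (PolyTime.ifP hdec (PolyTime.const (T.node T.leaf T.leaf))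
      (hf₀.comp i.right.left)).congr fun z => ?_
  unfold FF
  split_ifs <;> rfl

/-! ### The programs -/

/-- The bound for the clocks, for the data `D` and the input `x`. -/
def WW2 (D x : T) : T :=
  T.node (T.unary (x.size ^ D.left.right.left.len))
    (T.unary ((2 * x.size ^ D.left.right.left.len + 3) ^ D.left.left.right.len))

theorem prog_cost2 {F : T → T} (hF : PolyTime F) :
    ∃ (cG cM cm cL : Code) (β : ℕ), ∀ D x : T,
    ∃ t : ℕ, Eval (prog cG cM cm cL D) x (F (T.node D (T.node x (WW2 D x)))) t ∧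
      t ≤ (x.size + 2) ^ (kap β D) := by
  have i := PolyTime.id
  obtain ⟨cG, dG, hG⟩ := hF
  obtain ⟨cM, kM, hM⟩ := mulU_polyTime₂
  obtain ⟨cm, km, hm⟩ : PolyTime (fun x => T.unary x.size) := PolyNat.size i
  obtain ⟨cL, kL, hL⟩ : PolyTime (fun y : T => T.unary (2 * y.len + 3)) :=
    ((PolyNat.const 2).mul (PolyNat.len i)).add (PolyNat.const 3)
  obtain ⟨β, hβ⟩ := exponent_bound km kM kL dG
  refine ⟨cG, cM, cm, cL, β, fun D x => ?_⟩
  obtain ⟨s, hs⟩ : ∃ s, s = x.size + 2 := ⟨_, rfl⟩
  have hs3 : 3 ≤ s := by have := T.size_pos x; omega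
  rw [← hs]
  obtain ⟨K, hK⟩ : ∃ K, K = D.left.right.left.len := ⟨_, rfl⟩
  obtain ⟨j, hj⟩ : ∃ j, j = D.left.left.right.len := ⟨_, rfl⟩
  obtain ⟨m, hmm⟩ : ∃ m, m = x.size := ⟨_, rfl⟩
  obtain ⟨e1, he1⟩ : ∃ e, e = (1 + 1) * km := ⟨_, rfl⟩
  obtain ⟨e2, he2⟩ : ∃ e, e = (e1 + 4) * (kM + 1) * (K + 3) := ⟨_, rfl⟩
  obtain ⟨e3, he3⟩ : ∃ e, e = e1 + e2 + 1 := ⟨_, rfl⟩
  obtain ⟨e4, he4⟩ : ∃ e, e = (e2 + 1) * kL := ⟨_, rfl⟩
  obtain ⟨e5, he5⟩ : ∃ e, e = (e4 + 4) * (kM + 1) * (j + 3) := ⟨_, rfl⟩
  obtain ⟨e6, he6⟩ : ∃ e, e = e3 + (e2 + (e4 + e5 + 1) + 1) + 1 := ⟨_, rfl⟩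
  obtain ⟨e7, he7⟩ : ∃ e, e = D.size + (1 + e6 + 1) + 1 := ⟨_, rfl⟩
  have c1 : Cost cm x (T.unary m) s e1 := by
    rw [he1, hmm]
    exact Cost.poly hm hs3 (by rw [pow_one]; omega)
  have z1 : 2 * m + 1 ≤ s ^ e1 := by have := c1.size; rwa [T.size_unary] at this
  have c2 : Cost (powC cM K) (T.unary m) (T.unary (m ^ K)) s e2 := by
    rw [he2]; exact powC_cost hM hs3 z1 K
  have c3 : Cost (Code.comp (powC cM K) cm) x (T.unary (m ^ K)) s e3 := by
    rw [he3]; exact Cost.comp hs3 c1 c2
  have c4 : Cost cL (T.unary (m ^ K)) (T.unary (2 * m ^ K + 3)) s e4 := by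
    have := Cost.poly hL hs3 c2.size
    rw [T.len_unary] at this
    rw [he4]; exact this
  have z4 : 2 * (2 * m ^ K + 3) + 1 ≤ s ^ e4 := by
    have := c4.size; rwa [T.size_unary] at this
  have c5 : Cost (powC cM j) (T.unary (2 * m ^ K + 3)) (T.unary ((2 * m ^ K + 3) ^ j)) s e5 := by
    rw [he5]; exact powC_cost hM hs3 z4 j
  have c6 : Cost (wC cM cm cL K j) x (WW2 D x) s e6 := by
    rw [he6, wC]
    refine Cost.comp hs3 c3 ?_
    unfold WW2
    rw [← hK, ← hj, ← hmm]
    exact Cost.pair hs3 (Cost.id c2.size) (Cost.comp hs3 c4 c5)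
  have c7 : Cost (Code.pair (Code.const D) (Code.pair Code.id (wC cM cm cL K j))) x
      (T.node D (T.node x (WW2 D x))) s e7 := by
    rw [he7]
    exact Cost.pair hs3 (Cost.const hs3) (Cost.pair hs3 (Cost.id (by rw [pow_one]; omega)) c6)
  have c8 := Cost.comp hs3 c7 (Cost.poly hG hs3 c7.size)
  have hb := hβ K j D.size e1 e2 e3 e4 e5 e6 e7 he1 he2 he3 he4 he5 he6 he7
  have c9 := c8.mono hs3 (e' := kap β D) (by
    rw [kap, ← hK, ← hj]
    exact hb)
  rw [prog, ← hK, ← hj]
  exact c9

/-! ### Exactness -/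

theorem tt_size_ge (x : T) : x.size ≤ (tt x).enc.size := by
  induction x with
  | leaf => exact T.size_pos _
  | node a b iha ihb => simp only [tt, Tm.enc, T.size, T.size_unary]; omega

theorem falsum_size_ge (w : T) : w.size + 10 ≤ (falsum w).enc.size := by
  have := tt_size_ge w
  simp only [falsum, Fm.enc, T.size, T.size_unary]
  omega

theorem bl_bn_size (t : T) (k : ℕ) (h : k ≤ bn t) : (bl k).size ≤ 2 * t.size := by
  have h1 := bl_size k
  have h2 : k.size ≤ (bn t).size := Nat.size_le_size h
  have h3 := bn_size_le t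
  have h4 : 2 * t.len + 1 ≤ t.size := by
    clear h h1 h2 h3
    induction t with
    | leaf => simp [T.size]
    | node a b _ ih =>
      have := T.size_pos a
      simp only [T.len_node, T.size]
      omega
  omega

theorem len_size (t : T) : 2 * t.len + 1 ≤ t.size := by
  induction t with
  | leaf => simp [T.size]
  | node a b _ ih =>
    have := T.size_pos a
    simp only [T.len_node, T.size]
    omega

theorem badB_iff {μ : Fm} {fP : T → T} {V D w : T} (hK : D.left.right.left.len = 1) :
    BadB μ fP V (T.node D (T.node (falsum w).enc (WW2 D (falsum w).enc))) ↔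
      BadX μ fP V D (bn w.left.left) w.left.right.len (bn w.right) := by
  obtain ⟨Z, hZ⟩ : ∃ Z, Z = T.node D (T.node (falsum w).enc (WW2 D (falsum w).enc)) := ⟨_, rfl⟩
  rw [← hZ]
  have e1 : Z.left = D := by rw [hZ]; rfl
  have e2 : zN Z = bn w.left.left := by
    rw [hZ, zN, T.right_node, T.left_node, unfalsum_enc]
  have e2' : zs Z = w.left.right.len := by
    rw [hZ, zs, T.right_node, T.left_node, unfalsum_enc]
  have e3 : zi Z = bn w.right := by
    rw [hZ, zi, T.right_node, T.left_node, unfalsum_enc]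
  have e4 : zB Z = (2 * (falsum w).enc.size + 3) ^ dj D := by
    rw [hZ, zB, WW2, hK, pow_one]
    simp only [T.right_node, T.len_unary]
    rfl
  have hw := falsum_size_ge w
  have hsz := T.size_parts_eq w
  have hsz' := T.size_parts_eq w.left
  have hclk : ∀ z : T, z.size ≤ 2 * (falsum w).enc.size + 1 →
      (z.size + 2) ^ dj D ≤ zB Z := by
    intro z hz
    rw [e4]
    exact Nat.pow_le_pow_left (by omega) _
  have hN : (bl (bn w.left.left)).size ≤ 2 * w.left.left.size := bl_bn_size _ _ le_rfl
  have hlen := len_size w.left.right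
  have hp := T.size_pos w.right
  have hzl : (zl (bn w.left.left) w.left.right.len).size ≤ 2 * (falsum w).enc.size + 1 := by
    simp only [zl, T.size, T.size_unary]
    omega
  have e5 : OB Z = OX D (bn w.left.left) w.left.right.len := by
    rw [OB, e1, e2, e2']
    exact outB_eq (hclk _ hzl)
  have e5' : outB (dT D) (dj D) (zB Z) (zl (bn w.left.left) w.left.right.len) =
      outX (dT D) (dj D) (zl (bn w.left.left) w.left.right.len) := outB_eq (hclk _ hzl)
  have e6 : ∀ k ≤ bn w.right, GB (T.node Z (bl k)) =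
      RX D (bn w.left.left) w.left.right.len k := by
    intro k hk
    rw [GB, T.left_node, T.right_node, e1, e2, e2', RX]
    refine outB_eq (hclk _ ?_)
    have := bl_bn_size _ _ hk
    simp only [T.size, T.size_unary]
    omega
  have e7 : min (((zl (bn w.left.left) w.left.right.len).size + 2) ^ dj D) (zB Z) =
      ((zl (bn w.left.left) w.left.right.len).size + 2) ^ dj D := min_eq_left (hclk _ hzl)
  have e8 : CheckT (fun k => GB (T.node Z (bl k))) (bn w.right) ↔
      CheckT (RX D (bn w.left.left) w.left.right.len) (bn w.right) :=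
    ⟨CheckT_congr e6, CheckT_congr fun k hk => (e6 k hk).symm⟩
  have e9 : ∀ W, FinalT (fun k => GB (T.node Z (bl k))) (bn w.right) W ↔
      FinalT (RX D (bn w.left.left) w.left.right.len) (bn w.right) W := fun W =>
    ⟨FinalT_congr e6, FinalT_congr fun k hk => (e6 k hk).symm⟩
  unfold BadB BadX
  rw [e1, e2, e2', e3, e5, e5', e7, e8, e9]

/-! ### Explicit descriptions -/

/-! An explicit description is `y = node (node a b) (node (unary s) (unary B))`; the programs with
codes `a` and `b` are run with clock `B`. -/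

def yB (y : T) : ℕ := y.right.right.len
def ys (y : T) : ℕ := y.right.left.len

/-- The records. -/
def RY (y : T) (m k : ℕ) : T := simul (T.node y.left.left (T.node (zr m (ys y) k)
  (T.unary (yB y))))

/-- The output of the second program. -/
def OY (y : T) (m : ℕ) : T := simul (T.node y.left.right (T.node (zl m (ys y))
  (T.unary (yB y))))

/-- `y` describes an accepting computation of the program with code `W`. -/
def DescY (y : T) (m : ℕ) (W : T) : Prop :=
  bn (OY y m) ≤ yB y ∧ bn (OY y m) ≠ 0 ∧ ∀ i < yB y, bn (OY y m) ≤ i ∨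
    (CheckT (RY y m) i ∧ (i + 1 ≠ bn (OY y m) ∨ FinalT (RY y m) i W))

theorem DescY_dec {y : T → T} {m : T → ℕ} {W : T → T} (hy : PolyTime y) (hm : PolyN m)
    (hW : PolyTime W) : PolyDec (fun z => DescY (y z) (m z) (W z)) := by
  have i := PolyTime.id
  have hm' : PolyTime (fun z => bl (m z)) := hm
  have hO : PolyTime (fun z => OY (y z) (m z)) :=
    simul_polyTime.comp (hy.left.right.node ((hm'.node (PolyNat.len hy.right.left).unary).node
      (PolyNat.len hy.right.right).unary))
  have hL : PolyN (fun z => bn (OY (y z) (m z))) := polyN_bn hO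
  -- the records, as a function of `node (node z (unary i)) (bl k)`
  have hR : PolyTime (fun u : T => simul (T.node (y u.left.left).left.left
      (T.node (T.node (bl (m u.left.left)) (T.node u.right (T.unary (ys (y u.left.left)))))
        (T.unary (yB (y u.left.left)))))) := by
    have hy' : PolyTime (fun u : T => y u.left.left) := hy.comp i.left.left
    have hm'' : PolyTime (fun u : T => bl (m u.left.left)) := hm'.comp i.left.left
    exact simul_polyTime.comp (hy'.left.left.node ((hm''.node (i.right.node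
      (PolyNat.len hy'.right.left).unary)).node (PolyNat.len hy'.right.right).unary))
  have hi : PolyN (fun u : T => u.right.len) := (PolyNat.len i.right).toN
  have hL' : PolyN (fun u : T => bn (OY (y u.left) (m u.left))) := hL.comp i.left
  refine (PolyDec.leN hL (PolyNat.len hy.right.right).toN).and
    (((PolyDec.eqN hL (PolyNat.const 0).toN).not).and ?_)
  have hball := PolyDec.ball (P := fun u : T => bn (OY (y u.left) (m u.left)) ≤ u.right.len ∨
    (CheckT (RY (y u.left) (m u.left)) u.right.len ∧
      (u.right.len + 1 ≠ bn (OY (y u.left) (m u.left)) ∨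
        FinalT (RY (y u.left) (m u.left)) u.right.len (W u.left)))) ?_
    (PolyNat.len hy.right.right)
  · refine hball.congr fun z => ?_
    simp only [T.left_node, T.right_node, T.len_unary]
    rfl
  · refine (PolyDec.leN hL' hi).or ((CheckT_dec hR hi).and
      (((PolyDec.eqN (hi.add (PolyNat.const 1).toN) hL').not).or
        (FinalT_dec hR hi (hW.comp i.left))))

end Pool.Agent.RU
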